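import Pool.Agent.H38R2.CG2.Stubs
import Pool.Agent.H38R2.CG.CC4

/-!
# CC4 of part two: twisted sums over k-element sets
-/

set_option autoImplicit false

namespace Pool.Agent.H38R2.CG2

open Finset Filter NumberField Pool.Agent.H38R2.CG
open scoped Classical

open Pool.Agent.H38R2.CG.CC4h in
theorem T2_CC4 : P_CC1 → P_CC3 → P2_CC4 := by
  intro h1 h3 M hM
  have hφ : 1 ≤ 2 * M.totient := by
    have := Nat.totient_pos.mpr hM
    omega
  obtain ⟨c, hc0, hc1, y0, hy0⟩ := h3 (2 * M.totient) hφ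
  refine ⟨c, hc0, hc1, y0, fun y hy ψ f hsf hcop hsum k hk1 hk2 ξ hξ => ?_⟩
  have h4 := hy0 y hy (xv M ψ f) (fun p _ => xv_root M hM ψ f p) hsum ξ hξ
  have h5 := h1 (PP y) (fun p => xv M ψ f p * Complex.exp (ξ * Real.log p * Complex.I)) c
    k (by
      intro p _
      rw [norm_mul]
      have : ‖Complex.exp (ξ * Real.log p * Complex.I)‖ = 1 := by
        have := Complex.norm_exp_ofReal_mul_I (ξ * Real.log p)
        rw [Complex.ofReal_mul] at this
        exact this
      rw [this, mul_one]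
      exact norm_xv M ψ f p) hc0 hc1 hk1 hk2 h4
  have h6 : ∑ s ∈ (PP y).powersetCard k,
      ψ (prodS s : ZMod M) * ((jacobiSym (prodS s : ℤ) f : ℤ) : ℂ) *
      Complex.exp (ξ * Real.log (prodS s) * Complex.I) =
      ∑ s ∈ (PP y).powersetCard k,
        ∏ p ∈ s, xv M ψ f p * Complex.exp (ξ * Real.log p * Complex.I) := by
    refine Finset.sum_congr rfl fun s hs => ?_
    rw [Finset.prod_mul_distrib, prod_exp s, prod_xv]
    intro p hp
    have := (Finset.mem_powersetCard.mp hs).1 hp
    unfold PP at this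
    exact (Finset.mem_filter.mp this).2.ne_zero
  rw [h6]
  exact h5

end Pool.Agent.H38R2.CG2
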