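import Pool.Agent.H38R2.CG2.Stubs
import Pool.Agent.H38R2.CG.FIN

set_option autoImplicit false

namespace Pool.Agent.H38R2.CG2

open Finset Filter NumberField Pool.Agent.H38R2.CG Pool.Agent.H38R2.CG.FINh
open scoped Classical

namespace FIN2h

/-- D is attached to an exceptional d. -/
def Rr (a : ℝ) (D : ℕ) : Prop := ∃ d : ℕ, 1 < d ∧ Squarefree d ∧ ¬ GoodA a d ∧ D = Dof d

lemma log_ineq (a : ℝ) (ha : 2 < a) : ∃ X1 : ℕ, 4 ≤ X1 ∧ ∀ X : ℕ, X1 ≤ X → ∀ d : ℝ,
    (X : ℝ) / 4 ≤ d → (Real.log X) ^ a / 2 ≤ (Real.log d) ^ a := by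
  have ht : Tendsto (fun X : ℕ => Real.log (X : ℝ)) atTop atTop :=
    Real.tendsto_log_atTop.comp tendsto_natCast_atTop_atTop
  set q : ℝ := (1 / 2 : ℝ) ^ (1 / a) with hq
  have hq0 : 0 < q := by positivity
  have hq1 : q < 1 := Real.rpow_lt_one (by norm_num) (by norm_num) (by positivity)
  have hqa : q ^ a = 1 / 2 := by
    rw [hq, ← Real.rpow_mul (by norm_num)]
    rw [one_div_mul_cancel (by linarith), Real.rpow_one]
  obtain ⟨X1, hX1⟩ := Filter.eventually_atTop.1 (ht.eventually_ge_atTop (2 / (1 - q)))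
  refine ⟨max X1 4, le_max_right _ _, ?_⟩
  intro X hX d hd
  have hL := hX1 X (le_trans (le_max_left _ _) hX)
  have hX4 : (4 : ℝ) ≤ X := by exact_mod_cast le_trans (le_max_right _ _) hX
  set L := Real.log (X : ℝ) with hLdef
  have h4 : Real.log 4 ≤ 2 := by
    have : (4 : ℝ) = 2 ^ 2 := by norm_num
    rw [this, Real.log_pow]
    have := Real.log_two_lt_d9
    push_cast
    linarith
  have hlow : L - 2 ≤ Real.log d := by
    have h1 : Real.log ((X : ℝ) / 4) ≤ Real.log d := Real.log_le_log (by positivity) hd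
    rw [Real.log_div (by positivity) (by norm_num)] at h1
    linarith
  have h1q : 0 < 1 - q := by linarith
  rw [div_le_iff₀ h1q] at hL
  have h9 : q * L ≤ L - 2 := by nlinarith
  have hL0 : 0 ≤ L := by
    by_contra hneg
    push Not at hneg
    nlinarith
  calc L ^ a / 2 = (q * L) ^ a := by
        rw [Real.mul_rpow hq0.le hL0, hqa]; ring
    _ ≤ (Real.log d) ^ a := by
        apply Real.rpow_le_rpow (by positivity)
        · linarith
        · linarith

lemma Rr_bad (h0 : P_N0d) (a : ℝ) (ha : 2 < a) : ∃ X1 : ℕ, ∀ X : ℕ, X1 ≤ X → ∀ D : ℕ, X < D →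
    Rr a D → IsFund D ∧ BadA a X D := by
  obtain ⟨X1, h4, hX1⟩ := log_ineq a ha
  refine ⟨X1, ?_⟩
  intro X hX D hXD hR
  obtain ⟨d, hd1, hds, hdg, rfl⟩ := hR
  refine ⟨isFund_Dof hd1 hds, ?_⟩
  unfold GoodA at hdg
  push Not at hdg
  obtain ⟨K, iF, iN, hrank, hx, hng⟩ := hdg
  refine ⟨K, iF, iN, hrank, ?_, ?_⟩
  · rw [h0 K d hd1 hds hrank hx]
    unfold Dof
    split_ifs <;> simp
  · intro hsg
    apply hng
    refine smallGen_mono K ?_ hsg
    apply hX1 X hX
    have h1 : X < 4 * d := lt_of_lt_of_le hXD (Dof_le d)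
    have h2 : (X : ℝ) < 4 * d := by exact_mod_cast h1
    linarith

/-- counting function of the exceptional discriminants -/
noncomputable def NN (a : ℝ) (Z : ℕ) : ℕ := ((Finset.Ioc 0 Z).filter (Rr a)).card

lemma NN_le (a : ℝ) (Z : ℕ) : NN a Z ≤ Z := by
  unfold NN
  refine le_trans (Finset.card_filter_le _ _) ?_
  simp

lemma NN_mono (a : ℝ) {Z Z' : ℕ} (h : Z ≤ Z') : NN a Z ≤ NN a Z' := by
  unfold NN
  apply Finset.card_le_card
  apply Finset.filter_subset_filter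
  exact Finset.Ioc_subset_Ioc_right h

lemma NN_add (a : ℝ) {X Z : ℕ} (h : X ≤ Z) :
    NN a Z ≤ NN a X + ((Finset.Ioc X Z).filter (Rr a)).card := by
  unfold NN
  rw [← Finset.Ioc_union_Ioc_eq_Ioc (Nat.zero_le X) h, Finset.filter_union]
  exact Finset.card_union_le _ _

lemma NN_bound (h0 : P_N0d) (h1 : P2_AS1) (a : ℝ) (ha : 2 < a) (ε : ℝ) (hε : 0 < ε) :
    ∃ C : ℝ, 0 ≤ C ∧ ∀ Z : ℕ, (NN a Z : ℝ) ≤ 2 * ε * Z + C := by
  obtain ⟨η, hη, hη1, X0, hX0⟩ := h1 a ha ε hε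
  obtain ⟨X1, hX1⟩ := Rr_bad h0 a ha
  -- step
  have step : ∀ X : ℕ, max X0 X1 ≤ X →
      (NN a ⌊(1 + η) * X⌋₊ : ℝ) ≤ NN a X + ε * η * X := by
    intro X hX
    have hle : X ≤ ⌊(1 + η) * (X : ℝ)⌋₊ := by
      apply Nat.le_floor
      have : (0 : ℝ) ≤ X := by positivity
      nlinarith
    have h2 := NN_add a hle
    have h3 : (((Finset.Ioc X ⌊(1 + η) * (X : ℝ)⌋₊).filter (Rr a)).card : ℝ) ≤ ε * η * X := by
      refine le_trans ?_ (hX0 X (le_trans (le_max_left _ _) hX))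
      have : ((Finset.Ioc X ⌊(1 + η) * (X : ℝ)⌋₊).filter (Rr a)) ⊆
          (Finset.Ioc X ⌊(1 + η) * (X : ℝ)⌋₊).filter (fun D => IsFund D ∧ BadA a X D) := by
        intro D hD
        rw [Finset.mem_filter] at hD ⊢
        exact ⟨hD.1, hX1 X (le_trans (le_max_right _ _) hX) D (Finset.mem_Ioc.1 hD.1).1 hD.2⟩
      exact_mod_cast Finset.card_le_card this
    have h2' : (NN a ⌊(1 + η) * (X : ℝ)⌋₊ : ℝ) ≤
        NN a X + (((Finset.Ioc X ⌊(1 + η) * (X : ℝ)⌋₊).filter (Rr a)).card : ℝ) := by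
      exact_mod_cast h2
    linarith
  set C : ℝ := 6 / η + 2 * (max X0 X1 : ℕ) + 2 with hC
  have hC0 : 0 ≤ C := by positivity
  refine ⟨C, hC0, ?_⟩
  intro Z
  induction Z using Nat.strong_induction_on with
  | _ Z ih =>
    by_cases hZ : (Z : ℝ) ≤ C
    · have : (NN a Z : ℝ) ≤ Z := by exact_mod_cast NN_le a Z
      have h2 : 0 ≤ 2 * ε * (Z : ℝ) := by positivity
      linarith
    · push Not at hZ
      have hZ6 : 6 / η < (Z : ℝ) := by
        have : (0 : ℝ) ≤ 2 * (max X0 X1 : ℕ) + 2 := by positivity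
        linarith
      have hZη : 6 < Z * η := by
        rwa [div_lt_iff₀ hη] at hZ6
      have hZM : 2 * ((max X0 X1 : ℕ) : ℝ) < (Z : ℝ) := by
        have : (0 : ℝ) < 6 / η := by positivity
        linarith
      have hZ0 : (0 : ℝ) < Z := by
        have : (0 : ℝ) ≤ ((max X0 X1 : ℕ) : ℝ) := by positivity
        linarith
      have h1η : (0 : ℝ) < 1 + η := by linarith
      set X := ⌈(Z : ℝ) / (1 + η)⌉₊ with hX
      have hXge : (Z : ℝ) / (1 + η) ≤ X := Nat.le_ceil _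
      have hXlt : (X : ℝ) < (Z : ℝ) / (1 + η) + 1 := Nat.ceil_lt_add_one (by positivity)
      have hXZ : (Z : ℝ) ≤ (1 + η) * X := by
        rw [div_le_iff₀ h1η] at hXge
        linarith
      have hXle : (1 + η) * (X : ℝ) < Z + (1 + η) := by
        have : (X : ℝ) - 1 < (Z : ℝ) / (1 + η) := by linarith
        rw [lt_div_iff₀ h1η] at this
        nlinarith
      have hXltZ : X < Z := by
        have : (X : ℝ) < Z := by nlinarith
        exact_mod_cast this
      have hXM : max X0 X1 ≤ X := by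
        have : ((max X0 X1 : ℕ) : ℝ) ≤ X := by nlinarith
        exact_mod_cast this
      have ihX := ih X hXltZ
      have hst := step X hXM
      have hmono : (NN a Z : ℝ) ≤ NN a ⌊(1 + η) * (X : ℝ)⌋₊ := by
        exact_mod_cast NN_mono a (Nat.le_floor hXZ)
      -- (2ε + εη) X ≤ 2 ε Z
      have key : (2 * ε + ε * η) * X ≤ 2 * ε * Z := by
        have h5 : (2 + η) * (X : ℝ) ≤ 2 * Z := by
          -- (1+η) X < Z + 1 + η
          -- multiply: (2+η) X (1+η) < (2+η)(Z+1+η) ≤ 2 Z (1+η)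
          have h6 : (2 + η) * ((1 + η) * (X : ℝ)) ≤ (2 + η) * (Z + (1 + η)) := by
            apply mul_le_mul_of_nonneg_left hXle.le (by linarith)
          have h7 : (2 + η) * (Z + (1 + η)) ≤ 2 * Z * (1 + η) := by
            nlinarith
          have h8 : (1 + η) * ((2 + η) * (X : ℝ)) ≤ (1 + η) * (2 * Z) := by
            nlinarith
          exact le_of_mul_le_mul_left h8 h1η
        have : (2 * ε + ε * η) * X = ε * ((2 + η) * (X : ℝ)) := by ring
        rw [this]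
        have : 2 * ε * (Z : ℝ) = ε * (2 * Z) := by ring
        rw [this]
        exact mul_le_mul_of_nonneg_left h5 hε.le
      nlinarith

lemma count_le (a : ℝ) (Y : ℕ) :
    ((Finset.Icc 2 Y).filter (fun d => Squarefree d ∧ ¬ GoodA a d)).card ≤ NN a (4 * Y) := by
  unfold NN
  refine Finset.card_le_card_of_injOn Dof ?_ ?_
  · intro d hd
    rw [Finset.mem_coe, Finset.mem_filter, Finset.mem_Icc] at hd
    rw [Finset.mem_coe, Finset.mem_filter, Finset.mem_Ioc]
    have h1 : 1 < d := by omega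
    refine ⟨⟨?_, ?_⟩, d, h1, hd.2.1, hd.2.2, rfl⟩
    · have := (isFund_Dof h1 hd.2.1).1
      omega
    · refine (Dof_le d).trans ?_
      omega
  · intro d _ d' _ h
    exact Dof_inj h

end FIN2h

open FIN2h in
theorem T2_FIN : P_N0d → P2_AS1 → FinalAll := by
  intro h0 h1 a ha
  rw [Metric.tendsto_atTop]
  intro ε hε
  obtain ⟨C, hC0, hC⟩ := NN_bound h0 h1 a ha (ε / 16) (by positivity)
  refine ⟨⌈2 * C / ε⌉₊ + 1, ?_⟩
  intro Y hY
  have hYr : 2 * C / ε < (Y : ℝ) := by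
    have h1 : 2 * C / ε ≤ ⌈2 * C / ε⌉₊ := Nat.le_ceil _
    have h2 : ((⌈2 * C / ε⌉₊ + 1 : ℕ) : ℝ) ≤ Y := by exact_mod_cast hY
    push_cast at h2
    linarith
  have hY0 : (0 : ℝ) < Y := lt_of_le_of_lt (by positivity) hYr
  rw [div_lt_iff₀ hε] at hYr
  have hb := hC (4 * Y)
  have hc : (((Finset.Icc 2 Y).filter (fun d => Squarefree d ∧ ¬ GoodA a d)).card : ℝ) ≤
      NN a (4 * Y) := by exact_mod_cast count_le a Y
  rw [Real.dist_eq, sub_zero, abs_of_nonneg (by positivity), div_lt_iff₀ hY0]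
  push_cast at hb
  nlinarith

end Pool.Agent.H38R2.CG2
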