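import Pool.Agent.H38R2.CG2.Stubs

namespace Pool.Agent.H38R2.CG2

open Finset Filter NumberField Pool.Agent.H38R2.CG

open scoped Classical

namespace FJh

open MeasureTheory intervalIntegral

lemma hcont (h : ℝ) : Continuous (fun ξ : ℝ => (1 - |ξ|) * Real.cos (ξ * h)) := by fun_prop

lemma fej_split (h : ℝ) : fej h = (∫ ξ in (-1 : ℝ)..0, (1 + ξ) * Real.cos (ξ * h)) +
    ∫ ξ in (0 : ℝ)..1, (1 - ξ) * Real.cos (ξ * h) := by
  unfold fej
  rw [← integral_add_adjacent_intervals (b := 0) ((hcont h).intervalIntegrable _ _)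
    ((hcont h).intervalIntegrable _ _)]
  congr 1
  · apply integral_congr
    intro ξ hξ
    rw [Set.uIcc_of_le (by norm_num)] at hξ
    simp only [abs_of_nonpos hξ.2, sub_neg_eq_add]
  · apply integral_congr
    intro ξ hξ
    rw [Set.uIcc_of_le (by norm_num)] at hξ
    simp only [abs_of_nonneg hξ.1]

lemma fej_ne (h : ℝ) (hh : h ≠ 0) : fej h = 2 * (1 - Real.cos h) / h ^ 2 := by
  rw [fej_split]
  have h1 : ∫ ξ in (-1 : ℝ)..0, (1 + ξ) * Real.cos (ξ * h) =
      ((1 + 0) * Real.sin (0 * h) / h + Real.cos (0 * h) / h ^ 2) -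
      ((1 + (-1)) * Real.sin (-1 * h) / h + Real.cos (-1 * h) / h ^ 2) := by
    apply integral_eq_sub_of_hasDerivAt
      (f := fun ξ : ℝ => (1 + ξ) * Real.sin (ξ * h) / h + Real.cos (ξ * h) / h ^ 2)
    · intro ξ _
      have e1 : HasDerivAt (fun ξ : ℝ => ξ * h) h ξ := by
        simpa using (hasDerivAt_id ξ).mul_const h
      have e2 : HasDerivAt (fun ξ : ℝ => 1 + ξ) 1 ξ := by
        simpa using (hasDerivAt_id ξ).const_add 1
      have e3 := (((e2.mul e1.sin).div_const h).add ((e1.cos).div_const (h ^ 2)))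
      refine e3.congr_deriv ?_
      field_simp
      ring
    · exact (Continuous.intervalIntegrable (by fun_prop) _ _)
  have h2 : ∫ ξ in (0 : ℝ)..1, (1 - ξ) * Real.cos (ξ * h) =
      ((1 - 1) * Real.sin (1 * h) / h - Real.cos (1 * h) / h ^ 2) -
      ((1 - 0) * Real.sin (0 * h) / h - Real.cos (0 * h) / h ^ 2) := by
    apply integral_eq_sub_of_hasDerivAt
      (f := fun ξ : ℝ => (1 - ξ) * Real.sin (ξ * h) / h - Real.cos (ξ * h) / h ^ 2)
    · intro ξ _
      have e1 : HasDerivAt (fun ξ : ℝ => ξ * h) h ξ := by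
        simpa using (hasDerivAt_id ξ).mul_const h
      have e2 : HasDerivAt (fun ξ : ℝ => 1 - ξ) (-1) ξ := by
        simpa using (hasDerivAt_id ξ).const_sub 1
      have e3 := (((e2.mul e1.sin).div_const h).sub ((e1.cos).div_const (h ^ 2)))
      refine e3.congr_deriv ?_
      field_simp
      ring
    · exact (Continuous.intervalIntegrable (by fun_prop) _ _)
  rw [h1, h2]
  simp only [zero_mul, Real.sin_zero, Real.cos_zero, mul_zero, zero_div, neg_mul, one_mul,
    Real.sin_neg, Real.cos_neg]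
  field_simp
  ring

lemma fej_cont : Continuous fej := by
  unfold fej
  exact continuous_parametric_intervalIntegral_of_continuous' (by fun_prop) _ _

lemma fej_zero : fej 0 = 1 := by
  rw [fej_split]
  have h1 : ∫ ξ in (-1 : ℝ)..0, (1 + ξ) * Real.cos (ξ * 0) =
      (0 + 0 ^ 2 / 2) - ((-1 : ℝ) + (-1) ^ 2 / 2) := by
    apply integral_eq_sub_of_hasDerivAt (f := fun ξ : ℝ => ξ + ξ ^ 2 / 2)
    · intro ξ _
      have e1 := (hasDerivAt_id ξ).add ((hasDerivAt_pow 2 ξ).div_const 2)
      refine e1.congr_deriv ?_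
      simp
    · exact (Continuous.intervalIntegrable (by fun_prop) _ _)
  have h2 : ∫ ξ in (0 : ℝ)..1, (1 - ξ) * Real.cos (ξ * 0) =
      ((1 : ℝ) - 1 ^ 2 / 2) - (0 - 0 ^ 2 / 2) := by
    apply integral_eq_sub_of_hasDerivAt (f := fun ξ : ℝ => ξ - ξ ^ 2 / 2)
    · intro ξ _
      have e1 := (hasDerivAt_id ξ).sub ((hasDerivAt_pow 2 ξ).div_const 2)
      refine e1.congr_deriv ?_
      simp
    · exact (Continuous.intervalIntegrable (by fun_prop) _ _)
  rw [h1, h2]
  norm_num

lemma fej_nonneg (h : ℝ) : 0 ≤ fej h := by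
  by_cases hh : h = 0
  · rw [hh, fej_zero]; norm_num
  · rw [fej_ne h hh]
    have := Real.cos_le_one h
    exact div_nonneg (by linarith) (by positivity)

lemma fej_le (h : ℝ) : fej h ≤ 8 * (1 + h ^ 2)⁻¹ := by
  by_cases hh : h = 0
  · rw [hh, fej_zero]; norm_num
  · rw [fej_ne h hh]
    have h1 := Real.neg_one_le_cos h
    have h2 := Real.one_sub_sq_div_two_le_cos (x := h)
    have hpos : 0 < h ^ 2 := by positivity
    rw [← div_eq_mul_inv, div_le_div_iff₀ hpos (by positivity)]
    nlinarith [mul_nonneg hpos.le (by linarith : 0 ≤ 1 + Real.cos h)]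

lemma fej_int : Integrable fej := by
  refine Integrable.mono' (g := fun h : ℝ => 8 * (1 + h ^ 2)⁻¹)
    (integrable_inv_one_add_sq.const_mul 8) fej_cont.aestronglyMeasurable ?_
  filter_upwards with h
  rw [Real.norm_eq_abs, abs_of_nonneg (fej_nonneg h)]
  exact fej_le h

lemma fejI_pos : 0 < fejI := by
  unfold fejI
  rw [integral_pos_iff_support_of_nonneg fej_nonneg fej_int]
  refine (fej_cont.isOpen_support).measure_pos _ ⟨0, ?_⟩
  rw [Function.mem_support, fej_zero]
  norm_num

lemma subst (l x a b : ℝ) (hl : 0 < l) :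
    ∫ t in a..b, l * fej (l * (x - t)) = ∫ u in (l * x - l * b)..(l * x - l * a), fej u := by
  rw [intervalIntegral.integral_const_mul]
  have h1 : (fun t : ℝ => fej (l * (x - t))) = fun t : ℝ => fej (l * x - l * t) := by
    funext t
    rw [mul_sub]
  rw [h1, integral_comp_sub_mul fej hl.ne' (l * x), smul_eq_mul, ← mul_assoc,
    mul_inv_cancel₀ hl.ne', one_mul]

end FJh

open MeasureTheory in
theorem T2_FJ : P2_FJ := by
  refine ⟨FJh.fejI_pos, FJh.fej_nonneg, FJh.fej_cont, ?_, ?_⟩
  · intro l x a b hl hab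
    rw [FJh.subst l x a b hl, intervalIntegral.integral_of_le (by nlinarith)]
    exact setIntegral_le_integral FJh.fej_int (Eventually.of_forall FJh.fej_nonneg)
  · intro κ hκ
    have hpos := FJh.fejI_pos
    have ht : Tendsto (fun K : ℝ => ∫ u in (-K)..K, fej u) atTop (nhds fejI) :=
      intervalIntegral_tendsto_integral FJh.fej_int tendsto_neg_atTop_atBot tendsto_id
    have hlt : fejI / (1 + κ) < fejI := by
      rw [div_lt_iff₀ (by linarith)]
      nlinarith
    have hev := (ht.eventually_const_lt hlt).and (eventually_gt_atTop 0)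
    obtain ⟨K, hK, hK0⟩ := hev.exists
    refine ⟨K, hK0, ?_⟩
    intro l x hl
    rw [FJh.subst l x _ _ hl]
    have e1 : l * x - l * (x + K / l) = -K := by
      field_simp
      ring
    have e2 : l * x - l * (x - K / l) = K := by
      field_simp
      ring
    rw [e1, e2]
    rw [div_lt_iff₀ (by linarith)] at hK
    linarith [mul_comm (∫ u in (-K)..K, fej u) (1 + κ)]

end Pool.Agent.H38R2.CG2
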