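import Pool.Agent.H38R2.CG2.Stubs

set_option autoImplicit false

namespace Pool.Agent.H38R2.CG2

open Finset Filter NumberField Pool.Agent.H38R2.CG
open scoped Classical

namespace FSh

lemma tent_integral : ∫ ξ in (-1 : ℝ)..1, (1 - |ξ|) = 1 := by
  have hc : Continuous fun ξ : ℝ => 1 - |ξ| := by fun_prop
  rw [← intervalIntegral.integral_add_adjacent_intervals (b := 0)
    (hc.intervalIntegrable _ _) (hc.intervalIntegrable _ _)]
  have h1 : ∫ ξ in (-1 : ℝ)..0, (1 - |ξ|) = ∫ ξ in (-1 : ℝ)..0, (1 + ξ) := by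
    refine intervalIntegral.integral_congr fun ξ hξ => ?_
    rw [Set.uIcc_of_le (by norm_num)] at hξ
    show 1 - |ξ| = 1 + ξ
    rw [abs_of_nonpos hξ.2]; ring
  have h2 : ∫ ξ in (0 : ℝ)..1, (1 - |ξ|) = ∫ ξ in (0 : ℝ)..1, (1 - ξ) := by
    refine intervalIntegral.integral_congr fun ξ hξ => ?_
    rw [Set.uIcc_of_le (by norm_num)] at hξ
    show 1 - |ξ| = 1 - ξ
    rw [abs_of_nonneg hξ.1]
  rw [h1, h2, intervalIntegral.integral_add (by simp) (by simp),
    intervalIntegral.integral_sub (by simp) (by simp)]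
  simp
  norm_num

lemma sin_zero (h : ℝ) : ∫ ξ in (-1 : ℝ)..1, (1 - |ξ|) * Real.sin (ξ * h) = 0 := by
  have h1 : ∫ ξ in (-1 : ℝ)..1, (1 - |ξ|) * Real.sin (ξ * h) =
      ∫ ξ in (-1 : ℝ)..1, (1 - |(-ξ)|) * Real.sin ((-ξ) * h) := by
    have := intervalIntegral.integral_comp_neg (a := (-1 : ℝ)) (b := 1)
      (fun ξ : ℝ => (1 - |ξ|) * Real.sin (ξ * h))
    simpa using this.symm
  have h2 : ∫ ξ in (-1 : ℝ)..1, (1 - |(-ξ)|) * Real.sin ((-ξ) * h) =
      - ∫ ξ in (-1 : ℝ)..1, (1 - |ξ|) * Real.sin (ξ * h) := by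
    rw [← intervalIntegral.integral_neg]
    refine intervalIntegral.integral_congr fun ξ _ => ?_
    show (1 - |(-ξ)|) * Real.sin ((-ξ) * h) = -((1 - |ξ|) * Real.sin (ξ * h))
    rw [abs_neg, neg_mul, Real.sin_neg]; ring
  linarith

lemma fej_exp (h : ℝ) : ((fej h : ℝ) : ℂ) =
    ∫ ξ in (-1 : ℝ)..1, ((1 - |ξ| : ℝ) : ℂ) * Complex.exp (ξ * h * Complex.I) := by
  have hc : Continuous fun ξ : ℝ => (1 - |ξ|) * Real.cos (ξ * h) := by fun_prop
  have hs : Continuous fun ξ : ℝ => (1 - |ξ|) * Real.sin (ξ * h) := by fun_prop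
  have h1 : ∀ ξ : ℝ, ((1 - |ξ| : ℝ) : ℂ) * Complex.exp (ξ * h * Complex.I) =
      (((1 - |ξ|) * Real.cos (ξ * h) : ℝ) : ℂ) +
        (((1 - |ξ|) * Real.sin (ξ * h) : ℝ) : ℂ) * Complex.I := by
    intro ξ
    have : ((ξ : ℂ) * (h : ℂ)) = ((ξ * h : ℝ) : ℂ) := by push_cast; ring
    rw [this, Complex.exp_mul_I, ← Complex.ofReal_cos, ← Complex.ofReal_sin]
    push_cast
    ring
  rw [intervalIntegral.integral_congr (g := fun ξ : ℝ =>
    (((1 - |ξ|) * Real.cos (ξ * h) : ℝ) : ℂ) +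
        (((1 - |ξ|) * Real.sin (ξ * h) : ℝ) : ℂ) * Complex.I) fun ξ _ => h1 ξ]
  have i1 : IntervalIntegrable (fun ξ : ℝ => (((1 - |ξ|) * Real.cos (ξ * h) : ℝ) : ℂ))
      MeasureTheory.volume (-1) 1 := (Complex.continuous_ofReal.comp hc).intervalIntegrable _ _
  have i2 : IntervalIntegrable
      (fun ξ : ℝ => (((1 - |ξ|) * Real.sin (ξ * h) : ℝ) : ℂ) * Complex.I)
      MeasureTheory.volume (-1) 1 :=
    ((Complex.continuous_ofReal.comp hs).mul continuous_const).intervalIntegrable _ _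
  rw [intervalIntegral.integral_add i1 i2, intervalIntegral.integral_mul_const, intervalIntegral.integral_ofReal,
    intervalIntegral.integral_ofReal, sin_zero, fej]
  simp

end FSh

open FSh in
theorem T2_FS : P2_FS := by
  intro ι T c x l t0 b hl hb hbd
  have h1 : ∑ i ∈ T, ∑ j ∈ T, c i * c j * ((fej (l * (x i + x j - t0)) : ℝ) : ℂ) =
      ∫ ξ in (-1 : ℝ)..1, ((1 - |ξ| : ℝ) : ℂ) * Complex.exp (-(ξ * l * t0 * Complex.I)) *
        (∑ i ∈ T, c i * Complex.exp (((l * ξ : ℝ) : ℂ) * x i * Complex.I)) ^ 2 := by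
    have hcont : ∀ i j, Continuous fun ξ : ℝ => c i * c j * (((1 - |ξ| : ℝ) : ℂ) *
        Complex.exp (ξ * ((l * (x i + x j - t0) : ℝ) : ℂ) * Complex.I)) := by
      intro i j
      fun_prop
    calc ∑ i ∈ T, ∑ j ∈ T, c i * c j * ((fej (l * (x i + x j - t0)) : ℝ) : ℂ)
        = ∑ i ∈ T, ∑ j ∈ T, ∫ ξ in (-1 : ℝ)..1, c i * c j * (((1 - |ξ| : ℝ) : ℂ) *
            Complex.exp (ξ * ((l * (x i + x j - t0) : ℝ) : ℂ) * Complex.I)) := by
          refine Finset.sum_congr rfl fun i _ => Finset.sum_congr rfl fun j _ => ?_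
          rw [fej_exp, intervalIntegral.integral_const_mul]
      _ = ∫ ξ in (-1 : ℝ)..1, ∑ i ∈ T, ∑ j ∈ T, c i * c j * (((1 - |ξ| : ℝ) : ℂ) *
            Complex.exp (ξ * ((l * (x i + x j - t0) : ℝ) : ℂ) * Complex.I)) := by
          rw [intervalIntegral.integral_finsetSum]
          · refine Finset.sum_congr rfl fun i _ => ?_
            rw [intervalIntegral.integral_finsetSum]
            intro j _
            exact (hcont i j).intervalIntegrable _ _
          · intro i _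
            exact (continuous_finsetSum _ fun j _ => hcont i j).intervalIntegrable _ _
      _ = _ := by
          refine intervalIntegral.integral_congr fun ξ _ => ?_
          show ∑ i ∈ T, ∑ j ∈ T, c i * c j * (((1 - |ξ| : ℝ) : ℂ) *
            Complex.exp (ξ * ((l * (x i + x j - t0) : ℝ) : ℂ) * Complex.I)) =
            ((1 - |ξ| : ℝ) : ℂ) * Complex.exp (-(ξ * l * t0 * Complex.I)) *
            (∑ i ∈ T, c i * Complex.exp (((l * ξ : ℝ) : ℂ) * x i * Complex.I)) ^ 2
          rw [sq, Finset.sum_mul_sum, Finset.mul_sum]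
          refine Finset.sum_congr rfl fun i _ => ?_
          rw [Finset.mul_sum]
          refine Finset.sum_congr rfl fun j _ => ?_
          have : Complex.exp (ξ * ((l * (x i + x j - t0) : ℝ) : ℂ) * Complex.I) =
              Complex.exp (-(ξ * l * t0 * Complex.I)) *
              (Complex.exp (((l * ξ : ℝ) : ℂ) * x i * Complex.I) *
              Complex.exp (((l * ξ : ℝ) : ℂ) * x j * Complex.I)) := by
            rw [← Complex.exp_add, ← Complex.exp_add]
            congr 1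
            push_cast
            ring
          rw [this]
          ring
  rw [h1]
  have hg : Continuous fun ξ : ℝ => (1 - |ξ|) * b ^ 2 := by fun_prop
  have h2 := intervalIntegral.norm_integral_le_of_norm_le (μ := MeasureTheory.volume)
    (a := (-1 : ℝ)) (b := 1) (by norm_num)
    (f := fun ξ : ℝ => ((1 - |ξ| : ℝ) : ℂ) * Complex.exp (-(ξ * l * t0 * Complex.I)) *
        (∑ i ∈ T, c i * Complex.exp (((l * ξ : ℝ) : ℂ) * x i * Complex.I)) ^ 2)
    (g := fun ξ : ℝ => (1 - |ξ|) * b ^ 2) ?_ (hg.intervalIntegrable _ _)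
  · refine h2.trans (le_of_eq ?_)
    rw [intervalIntegral.integral_mul_const, tent_integral, one_mul]
  · refine Filter.Eventually.of_forall fun ξ hξ => ?_
    have hξ1 : |ξ| ≤ 1 := by
      rw [abs_le]; exact ⟨hξ.1.le, hξ.2⟩
    rw [norm_mul, norm_mul, norm_pow]
    have e1 : ‖((1 - |ξ| : ℝ) : ℂ)‖ = 1 - |ξ| := by
      rw [Complex.norm_real, Real.norm_eq_abs, abs_of_nonneg (by linarith)]
    have e2 : ‖Complex.exp (-(ξ * l * t0 * Complex.I))‖ = 1 := by
      have : -((ξ : ℂ) * l * t0 * Complex.I) = ((-(ξ * l * t0) : ℝ) : ℂ) * Complex.I := by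
        push_cast; ring
      rw [this, Complex.norm_exp_ofReal_mul_I]
    have e3 : ‖∑ i ∈ T, c i * Complex.exp (((l * ξ : ℝ) : ℂ) * x i * Complex.I)‖ ≤ b := by
      refine hbd (l * ξ) ?_
      rw [abs_mul, abs_of_pos hl]
      nlinarith
    rw [e1, e2, mul_one]
    exact mul_le_mul_of_nonneg_left (pow_le_pow_left₀ (norm_nonneg _) e3 2) (by linarith)

end Pool.Agent.H38R2.CG2
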