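import Pool.Agent.H38R2.CG2.Stubs

namespace Pool.Agent.H38R2.CG2

open Finset Filter NumberField Pool.Agent.H38R2.CG
open scoped Classical

namespace HSh

/-- the arithmetic function with value `C ^ omega n` -/
noncomputable def AF (C : ℝ) : ArithmeticFunction ℝ :=
  ⟨fun n => if n = 0 then 0 else C ^ n.primeFactors.card, if_pos rfl⟩

lemma AF_apply (C : ℝ) {n : ℕ} (hn : n ≠ 0) : AF C n = C ^ n.primeFactors.card := by
  show (if n = 0 then 0 else C ^ n.primeFactors.card) = _
  rw [if_neg hn]

lemma AF_mult (C : ℝ) : (AF C).IsMultiplicative := by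
  refine ⟨?_, ?_⟩
  · rw [AF_apply C one_ne_zero]
    simp
  · intro m n h
    by_cases hm : m = 0
    · subst hm
      simp
    by_cases hn : n = 0
    · subst hn
      simp
    rw [AF_apply C hm, AF_apply C hn, AF_apply C (mul_ne_zero hm hn), h.primeFactors_mul,
      Finset.card_union_of_disjoint h.disjoint_primeFactors, pow_add]

lemma pow_eq (C : ℝ) {f : ℕ} (hf : Squarefree f) :
    (C + 1) ^ f.primeFactors.card = ∑ g ∈ f.divisors, C ^ g.primeFactors.card := by
  have h := ArithmeticFunction.IsMultiplicative.prodPrimeFactors_one_add_of_squarefree (AF_mult C) hf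
  have h1 : ∏ p ∈ f.primeFactors, (1 + AF C p) = (C + 1) ^ f.primeFactors.card := by
    rw [← Finset.prod_const]
    apply Finset.prod_congr rfl
    intro p hp
    have hpp := Nat.prime_of_mem_primeFactors hp
    rw [AF_apply C hpp.ne_zero, hpp.primeFactors, Finset.card_singleton, pow_one, add_comm]
  rw [← h1, h]
  apply Finset.sum_congr rfl
  intro g hg
  rw [AF_apply C (Nat.pos_of_mem_divisors hg).ne']

end HSh

open HSh in
theorem T2_HS : P2_HS := by
  intro C1 X hX
  induction C1 with
  | zero =>
    rw [pow_zero]
    have h1 : ∀ f ∈ (Finset.Icc 1 X).filter Squarefree,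
        ((0 : ℕ) : ℝ) ^ f.primeFactors.card / f = if f = 1 then (1 : ℝ) else 0 := by
      intro f hf
      rw [Finset.mem_filter, Finset.mem_Icc] at hf
      by_cases h : f = 1
      · subst h
        simp
      · rw [if_neg h]
        have : f.primeFactors.card ≠ 0 := by
          rw [Ne, Finset.card_eq_zero, Nat.primeFactors_eq_empty]
          omega
        rw [Nat.cast_zero, zero_pow this, zero_div]
    rw [Finset.sum_congr rfl h1, Finset.sum_ite_eq']
    split_ifs
    · exact le_rfl
    · exact zero_le_one
  | succ C ih =>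
    set A := (Finset.Icc 1 X).filter Squarefree with hA
    have hH : ∑ h ∈ Finset.Icc 1 X, (1 : ℝ) / h ≤ 1 + Real.log X := by
      have h1 := harmonic_le_one_add_log X
      rw [harmonic_eq_sum_Icc] at h1
      push_cast at h1
      simpa only [one_div] using h1
    have hA0 : 0 ≤ ∑ g ∈ A, (C : ℝ) ^ g.primeFactors.card / g :=
      Finset.sum_nonneg fun g _ => by positivity
    have e1 : ∑ f ∈ A, ((C + 1 : ℕ) : ℝ) ^ f.primeFactors.card / f =
        ∑ f ∈ A, ∑ g ∈ A, if g ∣ f then (C : ℝ) ^ g.primeFactors.card * (1 / f) else 0 := by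
      apply Finset.sum_congr rfl
      intro f hf
      rw [hA, Finset.mem_filter, Finset.mem_Icc] at hf
      push_cast
      rw [pow_eq _ hf.2, Finset.sum_div, ← Finset.sum_filter]
      have e2 : f.divisors = A.filter (fun g => g ∣ f) := by
        ext g
        rw [Nat.mem_divisors, Finset.mem_filter, hA, Finset.mem_filter, Finset.mem_Icc]
        constructor
        · rintro ⟨h1, h2⟩
          have h3 : 0 < f := by omega
          exact ⟨⟨⟨Nat.pos_of_dvd_of_pos h1 h3, (Nat.le_of_dvd h3 h1).trans hf.1.2⟩,
            hf.2.squarefree_of_dvd h1⟩, h1⟩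
        · rintro ⟨-, h1⟩
          exact ⟨h1, by omega⟩
      rw [e2]
      apply Finset.sum_congr rfl
      intro g _
      ring
    rw [e1, Finset.sum_comm]
    have e3 : ∀ g ∈ A, (∑ f ∈ A, if g ∣ f then (C : ℝ) ^ g.primeFactors.card * (1 / (f : ℝ)) else 0) ≤
        (C : ℝ) ^ g.primeFactors.card / g * (1 + Real.log X) := by
      intro g hg
      rw [hA, Finset.mem_filter, Finset.mem_Icc] at hg
      have hg0 : (g : ℝ) ≠ 0 := by
        have : g ≠ 0 := by omega
        exact_mod_cast this
      rw [← Finset.sum_filter, ← Finset.mul_sum]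
      have e4 : ∑ f ∈ A.filter (fun f => g ∣ f), (1 : ℝ) / f ≤
          ∑ f ∈ (Finset.Icc 1 X).image (fun h => g * h), (1 : ℝ) / f := by
        apply Finset.sum_le_sum_of_subset_of_nonneg
        · intro f hf
          rw [Finset.mem_filter, hA, Finset.mem_filter, Finset.mem_Icc] at hf
          obtain ⟨h, rfl⟩ := hf.2
          rw [Finset.mem_image]
          refine ⟨h, ?_, rfl⟩
          rw [Finset.mem_Icc]
          have h1 := hf.1.1
          constructor
          · by_contra h2
            have : h = 0 := by omega
            subst this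
            omega
          · exact (Nat.le_mul_of_pos_left h (by omega)).trans h1.2
        · intro f _ _
          positivity
      rw [Finset.sum_image (fun a _ b _ hab => Nat.eq_of_mul_eq_mul_left (by omega) hab)] at e4
      have e5 : ∑ h ∈ Finset.Icc 1 X, (1 : ℝ) / ((g * h : ℕ) : ℝ) =
          1 / g * ∑ h ∈ Finset.Icc 1 X, (1 : ℝ) / h := by
        rw [Finset.mul_sum]
        apply Finset.sum_congr rfl
        intro h _
        push_cast
        rw [one_div_mul_one_div]
      rw [e5] at e4
      calc (C : ℝ) ^ g.primeFactors.card * ∑ f ∈ A.filter (fun f => g ∣ f), (1 : ℝ) / f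
          ≤ (C : ℝ) ^ g.primeFactors.card * (1 / g * (1 + Real.log X)) := by
            apply mul_le_mul_of_nonneg_left _ (by positivity)
            exact e4.trans (mul_le_mul_of_nonneg_left hH (by positivity))
        _ = _ := by ring
    refine (Finset.sum_le_sum e3).trans ?_
    rw [← Finset.sum_mul, pow_succ]
    apply mul_le_mul_of_nonneg_right ih
    have : 0 ≤ Real.log X := Real.log_natCast_nonneg X
    linarith

end Pool.Agent.H38R2.CG2
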