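import Pool.Agent.H38R2.CG2.Stubs

/-! CG2, task OM: the bandlimited majorant of `om`. -/

set_option autoImplicit false

namespace Pool.Agent.H38R2.CG2

open Finset Filter NumberField Pool.Agent.H38R2.CG
open scoped Classical

theorem T2_OM : P_TB2 → P2_FJ → P2_OMC → P2_OM := by
  intro hTB hFJ hOMC κ η' hκ hη' _
  obtain ⟨hI, hfej, hfc, -, h5⟩ := hFJ
  obtain ⟨K, hK, h6⟩ := h5 κ hκ
  refine ⟨K / η', by positivity, ?_⟩
  intro X η v x T0 T1 hX hη hη1 hv hT0 hT1
  set l : ℝ := K / η' with hl
  have hl0 : 0 < l := by positivity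
  have hKl : K / l = η' := by
    rw [hl]
    field_simp
  have h7 := h6 l x hl0
  rw [hKl] at h7
  set v' : ℝ := v * Real.exp (-(η' / 2)) with hv'
  have hv'0 : 0 ≤ v' := by positivity
  have hcont : Continuous (fun t : ℝ => om X η v' (Real.exp t)) := hOMC X η v' hX hη hη1 hv'0
  have hom0 : ∀ (w t : ℝ), 0 ≤ om X η w (Real.exp t) := fun w t =>
    (hTB X η hX hη hη1 (Real.exp t) (Real.exp_pos t)).2.1 w
  have hkc : Continuous (fun t : ℝ => l / fejI * fej (l * (x - t))) := by
    have : Continuous (fun t : ℝ => l * (x - t)) := by fun_prop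
    exact continuous_const.mul (hfc.comp this)
  have hk0 : ∀ t : ℝ, 0 ≤ l / fejI * fej (l * (x - t)) := fun t => by
    have := hfej (l * (x - t))
    positivity
  have hpt : ∀ t ∈ Set.Icc (x - η') (x + η'),
      om X η v (Real.exp x) ≤ Real.exp (η' / 2) * om X η v' (Real.exp t) := by
    intro t ht
    refine (hTB X η hX hη hη1 (Real.exp t) (Real.exp_pos t)).2.2.2.2 v hv (Real.exp x) (η' / 2)
      (Real.exp_pos x) (by positivity) ?_
    rw [Real.log_exp, Real.log_exp, abs_le]
    constructor <;> linarith [ht.1, ht.2]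
  set O : ℝ := om X η v (Real.exp x) with hO
  have hO0 : 0 ≤ O := hom0 v x
  have e1 : O ≤ (1 + κ) * ∫ t in (x - η')..(x + η'), O * (l / fejI * fej (l * (x - t))) := by
    have e2 : ∫ t in (x - η')..(x + η'), O * (l / fejI * fej (l * (x - t))) =
        O / fejI * ∫ t in (x - η')..(x + η'), l * fej (l * (x - t)) := by
      rw [← intervalIntegral.integral_const_mul]
      refine intervalIntegral.integral_congr fun t _ => ?_
      ring
    rw [e2]
    calc O = O / fejI * fejI := by field_simp
      _ ≤ O / fejI * ((1 + κ) * ∫ t in (x - η')..(x + η'), l * fej (l * (x - t))) := by gcongr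
      _ = _ := by ring
  have e3 : ∫ t in (x - η')..(x + η'), O * (l / fejI * fej (l * (x - t))) ≤
      ∫ t in (x - η')..(x + η'),
        Real.exp (η' / 2) * (om X η v' (Real.exp t) * (l / fejI * fej (l * (x - t)))) := by
    refine intervalIntegral.integral_mono_on (by linarith) ?_ ?_ ?_
    · exact (continuous_const.mul hkc).intervalIntegrable _ _
    · exact (continuous_const.mul (hcont.mul hkc)).intervalIntegrable _ _
    · intro t ht
      calc O * (l / fejI * fej (l * (x - t)))
          ≤ (Real.exp (η' / 2) * om X η v' (Real.exp t)) * (l / fejI * fej (l * (x - t))) :=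
            mul_le_mul_of_nonneg_right (hpt t ht) (hk0 t)
        _ = _ := by ring
  have e4 : ∫ t in (x - η')..(x + η'),
      om X η v' (Real.exp t) * (l / fejI * fej (l * (x - t))) ≤
      ∫ t in T0..T1, om X η v' (Real.exp t) * (l / fejI * fej (l * (x - t))) := by
    refine intervalIntegral.integral_mono_interval (by linarith) (by linarith) (by linarith) ?_ ?_
    · exact MeasureTheory.ae_of_all _ fun t => mul_nonneg (hom0 v' t) (hk0 t)
    · exact (hcont.mul hkc).intervalIntegrable _ _
  have e5 : ∫ t in (x - η')..(x + η'),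
        Real.exp (η' / 2) * (om X η v' (Real.exp t) * (l / fejI * fej (l * (x - t)))) =
      Real.exp (η' / 2) * ∫ t in (x - η')..(x + η'),
        om X η v' (Real.exp t) * (l / fejI * fej (l * (x - t))) :=
    intervalIntegral.integral_const_mul _ _
  rw [e5] at e3
  calc O ≤ (1 + κ) * ∫ t in (x - η')..(x + η'), O * (l / fejI * fej (l * (x - t))) := e1
    _ ≤ (1 + κ) * (Real.exp (η' / 2) * ∫ t in (x - η')..(x + η'),
        om X η v' (Real.exp t) * (l / fejI * fej (l * (x - t)))) := by gcongr
    _ ≤ (1 + κ) * (Real.exp (η' / 2) * ∫ t in T0..T1,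
        om X η v' (Real.exp t) * (l / fejI * fej (l * (x - t)))) := by gcongr
    _ = _ := by ring

end Pool.Agent.H38R2.CG2
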