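import Pool.Agent.H38R2.CG2.Stubs

/-! Task OMC: continuity of `om`. -/

set_option autoImplicit false

namespace Pool.Agent.H38R2.CG2

open Finset Filter NumberField Pool.Agent.H38R2.CG
open scoped Classical

theorem T2_OMC : P2_OMC := by
  intro X η v hX hη _ _
  have hX0 : (0 : ℝ) ≤ X := Nat.cast_nonneg X
  have he : (fun t : ℝ => om X η v (Real.exp t)) = fun t : ℝ =>
      ∫ x in (X : ℝ)..((1 + η) * X),
        phi (2 * Real.arsinh (v * √x / (2 * √(Real.exp t)))) * (1 / 2) /
          √(4 * Real.exp t + |x| * v ^ 2) := by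
    funext t
    unfold om
    refine intervalIntegral.integral_congr fun x hx => ?_
    rw [Set.uIcc_of_le (by nlinarith)] at hx
    have hx0 : 0 ≤ x := hX0.trans hx.1
    simp only [abs_of_nonneg hx0]
  rw [he]
  refine intervalIntegral.continuous_parametric_intervalIntegral_of_continuous' ?_ _ _
  have hphi : Continuous phi := by
    unfold phi
    fun_prop
  have h1 : Continuous (fun p : ℝ × ℝ => v * √p.2 / (2 * √(Real.exp p.1))) := by
    refine Continuous.div (by fun_prop) (by fun_prop) fun p => ?_
    have := Real.sqrt_pos.2 (Real.exp_pos p.1)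
    positivity
  have h2 : Continuous (fun p : ℝ × ℝ => phi (2 * Real.arsinh (v * √p.2 / (2 * √(Real.exp p.1))))) :=
    hphi.comp (continuous_const.mul (Real.continuous_arsinh.comp h1))
  refine Continuous.div (h2.mul continuous_const) (by fun_prop) fun p => ?_
  have h3 : 0 < 4 * Real.exp p.1 + |p.2| * v ^ 2 := by
    have := Real.exp_pos p.1
    positivity
  exact (Real.sqrt_pos.2 h3).ne'

end Pool.Agent.H38R2.CG2
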