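import Pool.Agent.H38R2.CG2.Stubs
import Pool.Agent.H38R2.CG.TB3b

/-!
# R2: local factors with common part
-/

set_option autoImplicit false

namespace Pool.Agent.H38R2.CG2

open Finset Filter NumberField Pool.Agent.H38R2.CG
open scoped Classical

namespace R2h

open Pool.Agent.H38R2.CG.TB3bh

/-- reduction of the number of square roots -/
theorem N_sq_mul {p k c : ℕ} (hp : p.Prime) :
    N (p ^ (k + 2)) (p ^ 2 * c) ≤ p * N (p ^ k) c := by
  unfold N
  rw [← Finset.card_range p, ← Finset.card_product, Finset.card_range]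
  have hp0 := hp.pos
  have hpk : 0 < p ^ k := pow_pos hp0 k
  have key : ∀ u : ℕ, u ^ 2 ≡ p ^ 2 * c [MOD p ^ (k + 2)] → p ∣ u := by
    intro u hu
    have h1 : u ^ 2 ≡ p ^ 2 * c [MOD p] := hu.of_dvd (dvd_pow_self p (by omega))
    have h2 : p ∣ u ^ 2 := (h1.dvd_iff (dvd_refl p)).2 ((dvd_pow_self p (by norm_num)).mul_right c)
    exact hp.dvd_of_dvd_pow h2
  refine Finset.card_le_card_of_injOn (fun u => ((u / p) / p ^ k, (u / p) % p ^ k)) ?_ ?_
  · intro u hu
    have hu' := Finset.mem_filter.1 (Finset.mem_coe.1 hu)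
    have hlt := Finset.mem_range.1 hu'.1
    obtain ⟨w, hw⟩ := key u hu'.2
    have hdiv : u / p = w := by rw [hw]; exact Nat.mul_div_cancel_left w hp0
    simp only [hdiv]
    refine Finset.mem_coe.2 (Finset.mem_product.2 ⟨?_, Finset.mem_filter.2 ⟨?_, ?_⟩⟩)
    · rw [Finset.mem_range]
      apply Nat.div_lt_of_lt_mul
      have h1 : p * w < p * (p ^ k * p) := by
        rw [← hw]
        calc u < p ^ (k + 2) := hlt
          _ = p * (p ^ k * p) := by ring
      exact lt_of_mul_lt_mul_left h1 (Nat.zero_le _)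
    · exact Finset.mem_range.2 (Nat.mod_lt _ hpk)
    · have h1 : p ^ 2 * w ^ 2 ≡ p ^ 2 * c [MOD p ^ 2 * p ^ k] := by
        have h2 := hu'.2
        rw [hw] at h2
        have e1 : (p * w) ^ 2 = p ^ 2 * w ^ 2 := by ring
        have e2 : p ^ (k + 2) = p ^ 2 * p ^ k := by ring
        rwa [e1, e2] at h2
      have h3 : w ^ 2 ≡ c [MOD p ^ k] :=
        Nat.ModEq.mul_left_cancel' (pow_ne_zero 2 hp0.ne') h1
      exact ((Nat.mod_modEq w (p ^ k)).pow 2).trans h3
  · intro u hu u' hu' he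
    have h1 := key u (Finset.mem_filter.1 (Finset.mem_coe.1 hu)).2
    have h2 := key u' (Finset.mem_filter.1 (Finset.mem_coe.1 hu')).2
    have he' := Prod.mk.inj he
    have h3 : u / p = u' / p := by
      rw [← Nat.div_add_mod (u / p) (p ^ k), ← Nat.div_add_mod (u' / p) (p ^ k), he'.1, he'.2]
    obtain ⟨w, hw⟩ := h1
    obtain ⟨w', hw'⟩ := h2
    rw [hw, hw', Nat.mul_div_cancel_left _ hp0, Nat.mul_div_cancel_left _ hp0] at h3
    rw [hw, hw', h3]

theorem N_le_two {p k c : ℕ} (hp : p.Prime) (hp2 : p ≠ 2) (hc : ¬ p ∣ c) :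
    N (p ^ k) c ≤ 2 := by
  rcases Nat.eq_zero_or_pos k with h | h
  · subst h
    rw [pow_zero]
    exact (N_one c).trans (by norm_num)
  · exact N_two hp hp2 h hc

end R2h

open R2h Pool.Agent.H38R2.CG.TB3bh in
theorem T2_R2 : P2_R2 := by
  classical
  intro z r v c s t hv hcs hct hst hp
  obtain ⟨m, hm⟩ : ∃ m : ℕ, m = prodS s * prodS t := ⟨_, rfl⟩
  obtain ⟨g, hg⟩ : ∃ g : ℕ, g = prodS c := ⟨_, rfl⟩
  have hpst : ∀ p ∈ s ∪ t, p.Prime ∧ ¬ p ∣ Qz z := by
    intro p h
    apply hp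
    rw [Finset.mem_union] at h
    rw [Finset.mem_union, Finset.mem_union]
    tauto
  have hsqm : ∀ q : ℕ, q.Prime → ¬ q ^ 2 ∣ m := by
    intro q hq
    rw [hm]
    exact sq_not_dvd hst hpst q hq
  rw [← hm, ← hg]
  obtain ⟨n, hn⟩ : ∃ n : ℕ, n = g ^ 2 * m := ⟨_, rfl⟩
  rw [← hn]
  have hgc : ∀ q : ℕ, q.Prime → q ∉ c → ¬ q ∣ g := by
    intro q hq hqc h
    rw [hg] at h
    unfold prodS at h
    obtain ⟨p, hpc, hqp⟩ := (Prime.dvd_finset_prod_iff hq.prime _).1 h
    have hpp := (hp p (by simp [hpc])).1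
    exact hqc ((Nat.prime_dvd_prime_iff_eq hq hpp).1 hqp ▸ hpc)
  have hgc' : ∀ q ∈ c, ∃ g', g = q * g' ∧ ¬ q ∣ g' := by
    intro q hq
    refine ⟨∏ p ∈ c.erase q, p, ?_, ?_⟩
    · rw [hg]
      unfold prodS
      exact (Finset.mul_prod_erase c (fun p => p) hq).symm
    · intro h
      have hqp := (hp q (by simp [hq])).1
      obtain ⟨p, hpc, hqp'⟩ := (Prime.dvd_finset_prod_iff hqp.prime _).1 h
      have hpp := (hp p (by simp [Finset.mem_of_mem_erase hpc])).1
      exact (Finset.ne_of_mem_erase hpc) ((Nat.prime_dvd_prime_iff_eq hqp hpp).1 hqp').symm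
  have hmc : ∀ q ∈ c, ¬ q ∣ m := by
    intro q hq h
    have hqp := (hp q (by simp [hq])).1
    rw [hm] at h
    rcases (hqp.dvd_mul).1 h with h1 | h1
    · unfold prodS at h1
      obtain ⟨p, hps, hqp'⟩ := (Prime.dvd_finset_prod_iff hqp.prime _).1 h1
      have hpp := (hp p (by simp [hps])).1
      have := (Nat.prime_dvd_prime_iff_eq hqp hpp).1 hqp'
      subst this
      exact (Finset.disjoint_left.1 hcs) hq hps
    · unfold prodS at h1
      obtain ⟨p, hps, hqp'⟩ := (Prime.dvd_finset_prod_iff hqp.prime _).1 h1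
      have hpp := (hp p (by simp [hps])).1
      have := (Nat.prime_dvd_prime_iff_eq hqp hpp).1 hqp'
      subst this
      exact (Finset.disjoint_left.1 hct) hq hps
  obtain ⟨S, hS⟩ : ∃ S : Finset ℕ, S = v.primeFactors.filter (fun p => ¬ p ∣ Qz z) := ⟨_, rfl⟩
  obtain ⟨v', hv'⟩ : ∃ v' : ℕ, v' = ∏ p ∈ S, p ^ (v.factorization p) := ⟨_, rfl⟩
  obtain ⟨w, hw⟩ : ∃ w : ℕ, w = qpart z v := ⟨_, rfl⟩
  have hvw : v = w * v' := by
    rw [hw, hv', hS]
    unfold qpart
    rw [Finset.prod_filter_mul_prod_filter_not]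
    exact (Nat.prod_factorization_pow_eq_self (by omega)).symm
  have hSp : ∀ p ∈ S, p.Prime ∧ p ∣ v ∧ ¬ p ∣ Qz z := by
    intro p hp'
    rw [hS] at hp'
    have h1 := Finset.mem_filter.1 hp'
    exact ⟨Nat.prime_of_mem_primeFactors h1.1, Nat.dvd_of_mem_primeFactors h1.1, h1.2⟩
  have hv0 : 0 < v' := by
    rw [hv']
    exact Finset.prod_pos fun p hp' => pow_pos (hSp p hp').1.pos _
  have hw0 : 0 < w := by
    rcases Nat.eq_zero_or_pos w with h | h
    · rw [h, zero_mul] at hvw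
      omega
    · exact h
  have hQ0 := Qz_pos z
  -- coprimality
  have hcop : Nat.Coprime (Qz z * w ^ 2) (v' ^ 2) := by
    refine Nat.Coprime.pow_right 2 ?_
    rw [hv']
    refine Nat.Coprime.prod_right fun p hp' => ?_
    obtain ⟨h1, h2, h3⟩ := hSp p hp'
    refine Nat.Coprime.pow_right _ ?_
    refine Nat.Coprime.mul_left ?_ (Nat.Coprime.pow_left 2 ?_)
    · exact (((h1.coprime_iff_not_dvd).2 h3)).symm
    · rw [hw]
      unfold qpart
      refine Nat.Coprime.prod_left fun q hq => ?_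
      have h4 := Finset.mem_filter.1 hq
      refine Nat.Coprime.pow_left _ ?_
      rw [Nat.coprime_primes (Nat.prime_of_mem_primeFactors h4.1) h1]
      rintro rfl
      exact h3 h4.2
  have h1 : Qz z * v ^ 2 = (Qz z * w ^ 2) * v' ^ 2 := by
    rw [hvw]
    ring
  have h2 : rho z r n v ≤ rhoQ z r n v * N (v' ^ 2) (4 * n + r * v ^ 2) := by
    have h3 := N_mul (c := 4 * n + r * v ^ 2) hcop (by positivity) (by positivity)
    rw [← h1] at h3
    have h4 : N (Qz z * w ^ 2) (4 * n + r * v ^ 2) = rhoQ z r n v := by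
      rw [hw]
      rfl
    rw [h4] at h3
    exact h3
  have h3 : N (v' ^ 2) (4 * n + r * v ^ 2) = N (v' ^ 2) (4 * n) := by
    apply N_congr
    have h4 : v' ^ 2 ∣ r * v ^ 2 := by
      rw [hvw]
      exact ⟨r * w ^ 2, by ring⟩
    have h5 := (Nat.modEq_zero_iff_dvd.2 h4).add_left (4 * n)
    simpa using h5
  have h4 : v' ^ 2 = ∏ p ∈ S, p ^ (v.factorization p * 2) := by
    rw [hv', ← Finset.prod_pow]
    exact Finset.prod_congr rfl fun p _ => by rw [← pow_mul]
  have h5 : N (v' ^ 2) (4 * n) ≤ ∏ p ∈ S, N (p ^ (v.factorization p * 2)) (4 * n) := by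
    rw [h4]
    exact N_prod S _ _ fun p hp' => (hSp p hp').1
  have h6 : ((∏ p ∈ S, N (p ^ (v.factorization p * 2)) (4 * n) : ℕ) : ℝ) ≤ tau c v *
      ∏ p ∈ v.primeFactors.filter (fun p => ¬ p ∣ Qz z ∧ p ∉ c),
        (1 + (jacobiSym ((m : ℕ) : ℤ) p : ℝ)) := by
    push_cast
    rw [← Finset.prod_filter_mul_prod_filter_not S (fun p => p ∈ c)]
    have e1 : S.filter (fun p => p ∈ c) = c.filter (fun p => p ∣ v) := by
      rw [hS]
      ext p
      simp only [Finset.mem_filter, Nat.mem_primeFactors]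
      constructor
      · rintro ⟨⟨⟨_, h8, _⟩, _⟩, h9⟩
        exact ⟨h9, h8⟩
      · rintro ⟨h8, h9⟩
        have h10 := hp p (by simp [h8])
        exact ⟨⟨⟨h10.1, h9, by omega⟩, h10.2⟩, h8⟩
    have e2 : S.filter (fun p => ¬ p ∈ c) = v.primeFactors.filter (fun p => ¬ p ∣ Qz z ∧ p ∉ c) := by
      rw [hS, Finset.filter_filter]
    have hp2 : ∀ p ∈ S, p ≠ 2 := by
      intro p hpS h
      have := (hSp p hpS).2.2
      rw [h] at this
      exact this (two_dvd_Qz z)
    refine mul_le_mul ?_ ?_ (Finset.prod_nonneg fun p _ => by positivity) ?_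
    · unfold tau
      rw [← e1]
      refine Finset.prod_le_prod (fun _ _ => by positivity) fun p hp' => ?_
      have hp'' := Finset.mem_filter.1 hp'
      obtain ⟨h7, h8, h9⟩ := hSp p hp''.1
      obtain ⟨g', hg', hpg'⟩ := hgc' p hp''.2
      have hpm := hmc p hp''.2
      have he : 1 ≤ v.factorization p := h7.factorization_pos_of_dvd (by omega) h8
      obtain ⟨e, he'⟩ : ∃ e, v.factorization p = e + 1 := ⟨v.factorization p - 1, by omega⟩
      have h10 : 4 * n = p ^ 2 * (4 * (g' ^ 2 * m)) := by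
        rw [hn, hg']
        ring
      have h11 : ¬ p ∣ 4 * (g' ^ 2 * m) := by
        intro h
        rcases (h7.dvd_mul).1 h with h12 | h12
        · have h13 : p ∣ 2 ^ 2 := by simpa using h12
          exact hp2 p hp''.1 ((Nat.prime_dvd_prime_iff_eq h7 Nat.prime_two).1
            (h7.dvd_of_dvd_pow h13))
        · rcases (h7.dvd_mul).1 h12 with h13 | h13
          · exact hpg' (h7.dvd_of_dvd_pow h13)
          · exact hpm h13
      have h12 : N (p ^ (v.factorization p * 2)) (4 * n) ≤ p * 2 := by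
        rw [he', h10]
        have h13 : (e + 1) * 2 = e * 2 + 2 := by ring
        rw [h13]
        exact (N_sq_mul h7).trans (Nat.mul_le_mul_left p (N_le_two h7 (hp2 p hp''.1) h11))
      have h14 : (N (p ^ (v.factorization p * 2)) (4 * n) : ℝ) ≤ ((p * 2 : ℕ) : ℝ) := by
        exact_mod_cast h12
      push_cast at h14
      linarith
    · rw [← e2]
      refine Finset.prod_le_prod (fun _ _ => by positivity) fun p hp' => ?_
      have hp'' := Finset.mem_filter.1 hp'
      obtain ⟨h7, h8, h9⟩ := hSp p hp''.1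
      have hpg := hgc p h7 hp''.2
      have hsqn : ¬ p ^ 2 ∣ n := by
        rw [hn]
        intro h
        have h10 : Nat.Coprime (p ^ 2) (g ^ 2) :=
          Nat.Coprime.pow _ _ ((h7.coprime_iff_not_dvd).2 hpg)
        exact hsqm p h7 (h10.dvd_of_dvd_mul_left h)
      have h10 := local_factor (n := n) h7 (hp2 p hp''.1)
        (h7.factorization_pos_of_dvd (by omega) h8) hsqn
      have h11 : jacobiSym (n : ℤ) p = jacobiSym (m : ℤ) p := by
        rw [hn]
        push_cast
        rw [jacobiSym.mul_left, jacobiSym.pow_left]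
        have h12 : jacobiSym (g : ℤ) p ^ 2 = 1 := by
          apply jacobiSym.sq_one
          rw [Int.gcd_natCast_natCast]
          exact ((h7.coprime_iff_not_dvd).2 hpg).symm
        rw [h12, one_mul]
      rw [h11] at h10
      exact h10
    · unfold tau
      exact Finset.prod_nonneg fun p _ => by positivity
  calc (rho z r n v : ℝ) ≤ ((rhoQ z r n v * N (v' ^ 2) (4 * n + r * v ^ 2) : ℕ) : ℝ) := by
        exact_mod_cast h2
    _ = (rhoQ z r n v : ℝ) * (N (v' ^ 2) (4 * n) : ℝ) := by rw [h3]; push_cast; ring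
    _ ≤ (rhoQ z r n v : ℝ) * (tau c v *
      ∏ p ∈ v.primeFactors.filter (fun p => ¬ p ∣ Qz z ∧ p ∉ c),
        (1 + (jacobiSym ((m : ℕ) : ℤ) p : ℝ))) := by
        refine mul_le_mul_of_nonneg_left ?_ (by positivity)
        refine le_trans ?_ h6
        exact_mod_cast h5

end Pool.Agent.H38R2.CG2
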