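import Pool.Agent.H38R2.CG.Stubs

/-!
# Class groups generated by primes of norm at most (log d)^a, a > 2: all squarefree d and primes
Definitions and statements.
-/

set_option autoImplicit false

namespace Pool.Agent.H38R2.CG2

open Finset Filter NumberField Pool.Agent.H38R2.CG
open scoped Classical

/-! ## Final statements -/

/-- The class group of the real quadratic field of d is generated by the primes of norm at most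
(log d)^a. -/
def GoodA (a : ℝ) (d : ℕ) : Prop :=
  ∀ (K : Type) [Field K] [NumberField K], Module.finrank ℚ K = 2 →
    (∃ x : K, x ^ 2 = (d : K)) → SmallGen K ((Real.log d) ^ a)

/-- 100% of the squarefree d. -/
def FinalAll : Prop := ∀ a : ℝ, 2 < a →
  Tendsto (fun X : ℕ =>
    (((Finset.Icc 2 X).filter (fun d => Squarefree d ∧ ¬ GoodA a d)).card : ℝ) / X)
    atTop (nhds 0)

/-- 100% of the primes. -/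
def FinalPrimes : Prop := ∀ a : ℝ, 2 < a →
  Tendsto (fun X : ℕ =>
    (((Finset.Icc 2 X).filter (fun p => p.Prime ∧ ¬ GoodA a p)).card : ℝ) /
      (((Finset.Icc 2 X).filter Nat.Prime).card : ℝ))
    atTop (nhds 0)

/-! ## Parameters -/

noncomputable def cc (a : ℝ) : ℝ := (a - 2) / (32 * (a - 1))
noncomputable def th (a : ℝ) : ℝ := 1 - 8 * cc a
noncomputable def yA (a : ℝ) (X : ℕ) : ℕ := ⌊(Real.log X) ^ a / 4⌋₊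
noncomputable def kA (a : ℝ) (X : ℕ) : ℕ := ⌊th a * Real.log X / Real.log (yA a X)⌋₊ + 1
noncomputable def PA (a : ℝ) (X : ℕ) : Finset ℕ := PP (yA a X)
noncomputable def SA (a : ℝ) (X : ℕ) : Finset (Finset ℕ) := (PA a X).powersetCard (kA a X)
/-- binomial coefficient: number of j-element subsets of PA -/
noncomputable def CA (a : ℝ) (X j : ℕ) : ℝ := ((PA a X).card.choose j : ℝ)
noncomputable def NA (a : ℝ) (X : ℕ) : ℝ := CA a X (kA a X)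

/-! ## Sieve weights -/

noncomputable def GG (X : ℕ) (ρ : ℕ → ℝ) : ℝ := ∑ d ∈ Finset.Icc 1 X, ρ d / d
noncomputable def wt (ρ : ℕ → ℝ) (D : ℕ) : ℝ := ∑ d ∈ D.divisors, ρ d

/-- admissible sieve weights -/
structure SWt (z X : ℕ) (P : Finset ℕ) (δ : ℝ) (C0 : ℕ) (ρ : ℕ → ℝ) : Prop where
  supp : ∀ d, ρ d ≠ 0 → 1 ≤ d ∧ (d : ℝ) ≤ (X : ℝ) ^ δ ∧ Squarefree d ∧ d.Coprime (Qz z) ∧
    ∀ p ∈ P, ¬ p ∣ d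
  bd : ∀ d, |ρ d| ≤ 1
  low : ((Real.log X) ^ C0)⁻¹ ≤ GG X ρ
  div : ∀ g : ℕ, Squarefree g →
    |∑ d ∈ (Finset.Icc 1 X).filter (fun d => g ∣ d), ρ d / d| ≤
      (C0 : ℝ) ^ g.primeFactors.card * GG X ρ / g
  pos : ∀ x : ℕ → ℝ, (∀ p, 0 ≤ x p ∧ x p ≤ 1) →
    0 ≤ ∑ d ∈ Finset.Icc 1 X, ρ d * ∏ p ∈ d.primeFactors, x p

/-- expected size of the weighted number of D -/
noncomputable def WW (z X : ℕ) (η : ℝ) (ρ : ℕ → ℝ) : ℝ := η * X / Qz z * GG X ρ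

/-- P2_TRIV: trivial weights. -/
def P2_TRIV : Prop := ∀ (z X : ℕ) (P : Finset ℕ) (δ : ℝ) (C0 : ℕ), 3 ≤ X → 0 < δ → 1 ≤ C0 →
  (∀ p ∈ P, p.Prime) →
  SWt z X P δ C0 (fun d => if d = 1 then 1 else 0) ∧ GG X (fun d => if d = 1 then 1 else 0) = 1 ∧
  ∀ D, 1 ≤ D → wt (fun d => if d = 1 then 1 else 0) D = 1

/-- P2_WT: the weights are nonnegative, and a second formula. -/
def P2_WT : Prop := ∀ (z X : ℕ) (P : Finset ℕ) (δ : ℝ) (C0 : ℕ) (ρ : ℕ → ℝ), 1 ≤ X → δ ≤ 1 →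
  SWt z X P δ C0 ρ → ∀ D : ℕ, 1 ≤ D → 0 ≤ wt ρ D ∧
    wt ρ D = ∑ d ∈ (Finset.Icc 1 X).filter (fun d => d ∣ D), ρ d

/-! ## Sizes -/

/-- P2_SZ: size of the products. -/
def P2_SZ : Prop := ∀ a : ℝ, 2 < a → ∃ X0 : ℕ, ∀ X ≥ X0, ∀ c s : Finset ℕ, c ⊆ PA a X →
  s ⊆ PA a X → c.card + s.card = kA a X →
  (X : ℝ) ^ (th a) ≤ (prodS c : ℝ) * prodS s ∧
    (prodS c : ℝ) * prodS s ≤ (X : ℝ) ^ (th a + cc a)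

/-- P2_NB: size of the parameters. -/
def P2_NB : Prop := ∀ a : ℝ, 2 < a → ∀ ε : ℝ, 0 < ε → ∃ X0 : ℕ, ∀ X ≥ X0,
  ((kA a X : ℝ)) ^ 2 ≤ (Real.log X) ^ (-((a - 2) / 2)) * (PA a X).card ∧
  (X : ℝ) ^ (1 / 2 + 3 * cc a) ≤ NA a X ∧
  (2 : ℝ) ^ (kA a X) ≤ (X : ℝ) ^ ε ∧ (kA a X : ℝ) ≤ Real.log X ∧
  √(Real.log X) ≤ kA a X ∧ (yA a X : ℝ) ≤ (X : ℝ) ^ ε ∧ 4 * (kA a X) ^ 2 ≤ (PA a X).card ∧
  ((PA a X).card : ℝ) ≤ (X : ℝ) ^ ε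

/-- P2_COMB: binomial sums. -/
def P2_COMB : Prop := ∀ (n k i0 : ℕ) (B : ℝ), 0 ≤ B → 1 ≤ n → 2 * k ≤ n →
  ∑ i ∈ Finset.Icc (i0 + 1) k, (n.choose i : ℝ) * B ^ i * (n.choose (k - i) : ℝ) ^ 2 ≤
    (4 * B * k ^ 2 / n) ^ (i0 + 1) * Real.exp (4 * B * k ^ 2 / n) * (n.choose k : ℝ) ^ 2

/-- P2_PAIR: pairs of sets by their intersection. -/
def P2_PAIR : Prop := ∀ (P : Finset ℕ) (k : ℕ) (A : Finset ℕ → Finset ℕ → Finset ℕ → ℝ),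
  (∀ c s t, c ⊆ P → s ⊆ P → t ⊆ P → 0 ≤ A c s t) →
  ∑ s ∈ P.powersetCard k, ∑ t ∈ P.powersetCard k, A (s ∩ t) (s \ t) (t \ s) ≤
    ∑ c ∈ P.powerset.filter (fun c => c.card ≤ k), ∑ s ∈ P.powersetCard (k - c.card),
      ∑ t ∈ P.powersetCard (k - c.card), A c s t

/-! ## Sums over D -/

/-- P2_V0: weighted number of D divisible by e. -/
def P2_V0 : Prop := ∀ (z r X : ℕ) (η : ℝ) (P : Finset ℕ) (δ : ℝ) (C0 : ℕ) (ρ : ℕ → ℝ) (e : ℕ),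
  r < Qz z → 0 < η → 1 ≤ X → δ ≤ 1 → SWt z X P δ C0 ρ → 1 ≤ e → e.Coprime (Qz z) →
  |(∑ D ∈ (DD z r X η).filter (fun D => e ∣ D), wt ρ D) -
    η * X / Qz z * ∑ d ∈ Finset.Icc 1 X, ρ d / (Nat.lcm d e : ℝ)| ≤ 2 * (X : ℝ) ^ δ

/-- P2_V1: cancellation of Jacobi symbols. -/
def P2_V1 : Prop := ∀ a : ℝ, 2 < a → ∀ (z r : ℕ), FundRes z r → ∀ η : ℝ, 0 < η → η ≤ 1 →
  ∀ C0 : ℕ, ∃ X0 : ℕ, ∀ X ≥ X0, ∀ ρ : ℕ → ℝ, SWt z X (PA a X) (cc a) C0 ρ →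
  ∀ m : ℕ, 1 ≤ m → m.Coprime (Qz z) → ¬ IsSquare m →
    ((m : ℝ) ≤ (X : ℝ) ^ (2 * th a + 2 * cc a) →
      |∑ D ∈ DD z r X η, wt ρ D * ((jacobiSym (D : ℤ) m : ℤ) : ℝ)| ≤ (X : ℝ) ^ (1 - cc a)) ∧
    ((m : ℝ) ≤ (X : ℝ) ^ (th a + 2 * cc a) →
      |∑ D ∈ FD z r X η, wt ρ D * ((jacobiSym (D : ℤ) m : ℤ) : ℝ)| ≤ (X : ℝ) ^ (1 - cc a))

/-- P2_LM: weighted first moment of L(1, chi_D). -/
def P2_LM : Prop := ∀ a : ℝ, 2 < a → ∀ (z r : ℕ), 2 ≤ z → FundRes z r → ∀ η : ℝ, 0 < η → η ≤ 1 →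
  ∀ C0 : ℕ, 1 ≤ C0 → ∀ ε : ℝ, 0 < ε → ∃ X0 : ℕ, ∀ X ≥ X0, ∀ ρ : ℕ → ℝ,
  SWt z X (PA a X) (cc a) C0 ρ →
    ∑ D ∈ FD z r X η, wt ρ D * Lone D ≤ (1 + ε) * (1 + 4 / z) * WW z X η ρ / PiR z r

/-- P2_M1L: weighted first moment of the ideal counts, lower bound. -/
def P2_M1L : Prop := ∀ a : ℝ, 2 < a → ∀ (z r : ℕ), 2 ≤ z → FundRes z r → ∀ η : ℝ, 0 < η →
  η ≤ 1 → ∀ C0 : ℕ, 1 ≤ C0 → ∀ ε : ℝ, 0 < ε → ∃ X0 : ℕ, ∀ X ≥ X0, ∀ ρ : ℕ → ℝ,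
  SWt z X (PA a X) (cc a) C0 ρ → ∀ s ∈ SA a X,
    (1 - ε - 2 * C0 / z) * WW z X η ρ ≤
      ∑ D ∈ FD z r X η, wt ρ D * ∏ p ∈ s, (1 + (chi D p : ℝ))

/-- P2_MLOW: for almost all D (in the weighted sense) there are enough ideals. -/
def P2_MLOW : Prop := ∀ a : ℝ, 2 < a → ∀ (z r : ℕ), FundRes z r → ∀ η : ℝ, 0 < η →
  η ≤ 1 → ∀ C0 : ℕ, 1 ≤ C0 → ∀ ε : ℝ, 0 < ε → ∃ X0 : ℕ, ∀ X ≥ X0, ∀ ρ : ℕ → ℝ,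
  SWt z X (PA a X) (cc a) C0 ρ →
    ∑ D ∈ (DD z r X η).filter (fun D => MD D (SA a X) (fun _ => 1) < (1 - ε) * NA a X), wt ρ D ≤
      ε * WW z X η ρ

/-! ## Counting solutions of u^2 - D v^2 = 4 n with d | D -/

/-- number of roots -/
def RR (z r n v d : ℕ) : ℕ :=
  ((Finset.range (Qz z * (d * v ^ 2))).filter (fun u =>
    u ^ 2 ≡ 4 * n + r * v ^ 2 [MOD Qz z * v ^ 2] ∧ u ^ 2 ≡ 4 * n [MOD d * v ^ 2])).card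

/-- P2_T1a: one n, one v, one d. -/
def P2_T1a : Prop := ∀ (z r X n v d : ℕ) (η : ℝ), r < Qz z → 0 < η → η ≤ 1 → 1 ≤ X → 1 ≤ n →
  1 ≤ v → 1 ≤ d → d.Coprime (Qz z) →
  |(∑ D ∈ (DD z r X η).filter (fun D => d ∣ D), ∑ u ∈ Finset.Icc 1 (4 * n),
    (if ((u : ℤ) ^ 2 - (D : ℤ) * (v : ℤ) ^ 2 = 4 * n) then
      phi (Real.log (((u : ℝ) + v * √(D : ℝ)) / ((u : ℝ) - v * √(D : ℝ)))) else 0)) -
    (RR z r n v d : ℝ) * (om X η v n / (Qz z * d))| ≤ (RR z r n v d : ℝ)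

/-- P2_T1: one n. -/
def P2_T1 : Prop := ∀ (z r X n : ℕ) (η : ℝ) (P : Finset ℕ) (δ : ℝ) (C0 : ℕ) (ρ : ℕ → ℝ),
  r < Qz z → 0 < η → η ≤ 1 → 1 ≤ X → 1 ≤ n → δ ≤ 1 → SWt z X P δ C0 ρ →
  ∑ D ∈ DD z r X η, wt ρ D * Rsum D n ≤
    (if IsSquare n then ∑ D ∈ DD z r X η, wt ρ D else 0) +
    2 * ∑ v ∈ Finset.Icc 1 ⌊2 * √((n : ℝ) / X)⌋₊,
      (om X η v n / Qz z * ∑ d ∈ Finset.Icc 1 X, ρ d / d * (RR z r n v d : ℝ) +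
        ∑ d ∈ Finset.Icc 1 X, |ρ d| * (RR z r n v d : ℝ))

/-- P2_R1: dependence of the number of roots on d. -/
def P2_R1 : Prop := ∀ z r n v d : ℕ, 1 ≤ n → 1 ≤ v → Squarefree d → d.Coprime (Qz z) →
  d.Coprime n → (RR z r n v d : ℝ) = (rho z r n v : ℝ) *
    ∏ p ∈ d.primeFactors.filter (fun p => ¬ p ∣ v), (1 + (jacobiSym (n : ℤ) p : ℝ))

noncomputable def tau (c : Finset ℕ) (v : ℕ) : ℝ := ∏ p ∈ c.filter (fun p => p ∣ v), (2 * p : ℝ)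

/-- P2_R2: local factors. -/
def P2_R2 : Prop := ∀ (z r v : ℕ) (c s t : Finset ℕ), 1 ≤ v → Disjoint c s → Disjoint c t →
  Disjoint s t → (∀ p ∈ c ∪ s ∪ t, p.Prime ∧ ¬ p ∣ Qz z) →
  (rho z r (prodS c ^ 2 * (prodS s * prodS t)) v : ℝ) ≤
    (rhoQ z r (prodS c ^ 2 * (prodS s * prodS t)) v : ℝ) * (tau c v *
      ∏ p ∈ v.primeFactors.filter (fun p => ¬ p ∣ Qz z ∧ p ∉ c),
        (1 + (jacobiSym ((prodS s * prodS t : ℕ) : ℤ) p : ℝ)))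

/-- twisted kernel -/
noncomputable def JJ (z X : ℕ) (ρ : ℕ → ℝ) (c : Finset ℕ) (m v : ℕ) : ℝ :=
  tau c v *
  (∏ p ∈ v.primeFactors.filter (fun p => ¬ p ∣ Qz z ∧ p ∉ c), (1 + (jacobiSym (m : ℤ) p : ℝ))) *
  ∑ d ∈ Finset.Icc 1 X, ρ d / d *
    ∏ p ∈ d.primeFactors.filter (fun p => ¬ p ∣ v), (1 + (jacobiSym (m : ℤ) p : ℝ))

noncomputable def kap (X : ℕ) (ρ : ℕ → ℝ) (f v : ℕ) : ℝ :=
  ∑ d ∈ (Finset.Icc 1 X).filter (fun d => f / Nat.gcd f v ∣ d), ρ d / d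

/-- P2_T2: sum over d of the number of roots. -/
def P2_T2 : Prop := ∀ (z r X v : ℕ) (P : Finset ℕ) (δ : ℝ) (C0 : ℕ) (ρ : ℕ → ℝ)
  (c s t : Finset ℕ), 1 ≤ v → SWt z X P δ C0 ρ → (∀ p ∈ P, p.Prime ∧ ¬ p ∣ Qz z) →
  c ⊆ P → s ⊆ P → t ⊆ P → Disjoint c s → Disjoint c t → Disjoint s t →
  ∑ d ∈ Finset.Icc 1 X, ρ d / d * (RR z r (prodS c ^ 2 * (prodS s * prodS t)) v d : ℝ) ≤
    (rhoQ z r (prodS c ^ 2 * (prodS s * prodS t)) v : ℝ) *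
      JJ z X ρ c (prodS s * prodS t) v

/-- P2_JP: the kernel is nonnegative. -/
def P2_JP : Prop := ∀ (z X : ℕ) (P : Finset ℕ) (δ : ℝ) (C0 : ℕ) (ρ : ℕ → ℝ) (c : Finset ℕ)
  (m v : ℕ), SWt z X P δ C0 ρ → 0 ≤ JJ z X ρ c m v

/-- P2_JX: expansion in Jacobi symbols. -/
def P2_JX : Prop := ∀ (z X : ℕ) (P : Finset ℕ) (δ : ℝ) (C0 : ℕ) (ρ : ℕ → ℝ) (c : Finset ℕ)
  (m v : ℕ), SWt z X P δ C0 ρ → c ⊆ P → (∀ p ∈ P, p.Prime ∧ ¬ p ∣ Qz z) → 1 ≤ v →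
  (v : ℝ) * (X : ℝ) ^ δ ≤ X →
  JJ z X ρ c m v = tau c v *
    ∑ f ∈ (Finset.Icc 1 X).filter
      (fun f => Squarefree f ∧ f.Coprime (Qz z) ∧ ∀ p ∈ c, ¬ p ∣ f),
      ((jacobiSym (m : ℤ) f : ℤ) : ℝ) * kap X ρ f v

/-- P2_KB: sums over v of the coefficients. -/
def P2_KB : Prop := ∀ (z X V f w : ℕ) (P : Finset ℕ) (δ : ℝ) (C0 : ℕ) (ρ : ℕ → ℝ)
  (c : Finset ℕ) (F : ℝ → ℝ) (I : ℝ), SWt z X P δ C0 ρ → 1 ≤ C0 → 1 ≤ w → 1 ≤ f →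
  Squarefree f → w.Coprime f → (∀ p ∈ c, p.Prime ∧ ¬ p ∣ f ∧ ¬ p ∣ w) →
  AntitoneOn F (Set.Ici 0) → (∀ x, 0 ≤ F x) →
  (∀ V : ℝ, 0 ≤ V → ∫ x in (0 : ℝ)..V, F x ≤ I) →
  ∑ v ∈ (Finset.Icc 1 V).filter (fun v => w ∣ v), F v * (tau c v * |kap X ρ f v|) ≤
    3 ^ c.card * (2 * C0 : ℝ) ^ f.primeFactors.card * GG X ρ / f * (I / w)

/-- P2_ERR: the error terms and the diagonal. -/
def P2_ERR : Prop := ∀ a : ℝ, 2 < a → ∀ (z r : ℕ), FundRes z r → ∀ η : ℝ, 0 < η →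
  η ≤ 1 → ∀ C0 : ℕ, 1 ≤ C0 → ∀ ε : ℝ, 0 < ε → ∃ X0 : ℕ, ∀ X ≥ X0, ∀ ρ : ℕ → ℝ,
  SWt z X (PA a X) (cc a) C0 ρ →
    (∑ s ∈ SA a X, ∑ t ∈ SA a X, 2 ^ ((s ∩ t).card) *
      ((if IsSquare (prodS s * prodS t) then ∑ D ∈ DD z r X η, wt ρ D else 0) +
      2 * ∑ v ∈ Finset.Icc 1 ⌊2 * √(((prodS s * prodS t : ℕ) : ℝ) / X)⌋₊,
        ∑ d ∈ Finset.Icc 1 X, |ρ d| * (RR z r (prodS s * prodS t) v d : ℝ))) ≤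
      ε * GG X ρ * √(X : ℝ) * (NA a X) ^ 2

/-! ## Fejer kernel and the majorant of om -/

noncomputable def fej (h : ℝ) : ℝ := ∫ ξ in (-1 : ℝ)..1, (1 - |ξ|) * Real.cos (ξ * h)
noncomputable def fejI : ℝ := ∫ h : ℝ, fej h

/-- P2_FJ: properties of the Fejer kernel. -/
def P2_FJ : Prop := 0 < fejI ∧ (∀ h, 0 ≤ fej h) ∧ Continuous fej ∧
  (∀ l x a b : ℝ, 0 < l → a ≤ b → ∫ t in a..b, l * fej (l * (x - t)) ≤ fejI) ∧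
  (∀ κ : ℝ, 0 < κ → ∃ K : ℝ, 0 < K ∧ ∀ l x : ℝ, 0 < l →
    fejI ≤ (1 + κ) * ∫ t in (x - K / l)..(x + K / l), l * fej (l * (x - t)))

/-- P2_FS: bilinear sums with the Fejer kernel. -/
def P2_FS : Prop := ∀ (ι : Type) (T : Finset ι) (c : ι → ℂ) (x : ι → ℝ) (l t0 b : ℝ), 0 < l →
  0 ≤ b → (∀ ξ : ℝ, |ξ| ≤ l → ‖∑ i ∈ T, c i * Complex.exp (ξ * x i * Complex.I)‖ ≤ b) →
  ‖∑ i ∈ T, ∑ j ∈ T, c i * c j * ((fej (l * (x i + x j - t0)) : ℝ) : ℂ)‖ ≤ b ^ 2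

/-- P2_OMC: continuity. -/
def P2_OMC : Prop := ∀ (X : ℕ) (η v : ℝ), 1 ≤ X → 0 < η → η ≤ 1 → 0 ≤ v →
  Continuous (fun t : ℝ => om X η v (Real.exp t))

/-- P2_OM: majorant. -/
def P2_OM : Prop := ∀ κ η' : ℝ, 0 < κ → 0 < η' → η' ≤ 1 → ∃ l : ℝ, 0 < l ∧
  ∀ (X : ℕ) (η v x T0 T1 : ℝ), 1 ≤ X → 0 < η → η ≤ 1 → 0 ≤ v → T0 + η' ≤ x → x + η' ≤ T1 →
  om X η v (Real.exp x) ≤ (1 + κ) * Real.exp (η' / 2) * (∫ t in T0..T1,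
    om X η (v * Real.exp (-(η' / 2))) (Real.exp t) * (l / fejI * fej (l * (x - t))))

/-! ## Character sums -/

/-- P2_CC4: twisted sums over k-element sets. -/
def P2_CC4 : Prop := ∀ M : ℕ, 1 ≤ M → ∃ c : ℝ, 0 < c ∧ c ≤ 1 / 2 ∧ ∃ y0 : ℕ, ∀ y ≥ y0,
  ∀ (ψ : DirichletCharacter ℂ M) (f : ℕ), Squarefree f → f.Coprime (2 * M) →
  ‖∑ p ∈ PP y, ψ (p : ZMod M) * ((jacobiSym (p : ℤ) f : ℤ) : ℂ)‖ ≤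
    (9 / 10 : ℝ) * (PP y).card →
  ∀ k : ℕ, 1 ≤ k → k ^ 2 ≤ (PP y).card → ∀ ξ : ℝ, |ξ| ≤ √(y : ℝ) →
  ‖∑ s ∈ (PP y).powersetCard k, ψ (prodS s : ZMod M) * ((jacobiSym (prodS s : ℤ) f : ℤ) : ℂ) *
      Complex.exp (ξ * Real.log (prodS s) * Complex.I)‖ ≤
    50 * √(k : ℝ) * (1 - c) ^ k * ((PP y).card.choose k)

/-- P2_CC7: bad f have small weighted harmonic sum. -/
def P2_CC7 : Prop := ∀ a : ℝ, 2 < a → ∀ M : ℕ, 1 ≤ M → ∀ C1 : ℕ, ∀ ε : ℝ, 0 < ε →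
  ∃ X0 : ℕ, ∀ X ≥ X0,
  ∑ f ∈ (Finset.Icc 1 X).filter
      (fun f => Squarefree f ∧ f.Coprime (2 * M) ∧ BadF M (yA a X) f),
    (C1 : ℝ) ^ f.primeFactors.card / f ≤ ε

/-- P2_HS: weighted harmonic sum. -/
def P2_HS : Prop := ∀ C1 X : ℕ, 1 ≤ X →
  ∑ f ∈ (Finset.Icc 1 X).filter Squarefree, (C1 : ℝ) ^ f.primeFactors.card / f ≤
    (1 + Real.log X) ^ C1

/-- P2_NBAD: the f that are not bad. -/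
def P2_NBAD : Prop := ∀ a : ℝ, 2 < a → ∀ M : ℕ, 1 ≤ M → ∀ C1 i0 : ℕ, ∀ l ε : ℝ, 0 < l → 0 < ε →
  ∃ X0 : ℕ, ∀ X ≥ X0, ∀ k : ℕ, kA a X - i0 ≤ k → k ≤ kA a X →
  ∃ b : ℝ, 0 ≤ b ∧ b ^ 2 * (1 + Real.log X) ^ C1 ≤ ε / Real.log X * (CA a X k) ^ 2 ∧
  ∀ (ψ : DirichletCharacter ℂ M) (f : ℕ), Squarefree f → f.Coprime (2 * M) →
  ¬ (ψ = 1 ∧ f = 1) → ¬ BadF M (yA a X) f → ∀ ξ : ℝ, |ξ| ≤ l →
  ‖∑ s ∈ (PA a X).powersetCard k, ψ (prodS s : ZMod M) *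
      ((jacobiSym (prodS s : ℤ) f : ℤ) : ℂ) * Complex.exp (ξ * Real.log (prodS s) * Complex.I)‖ ≤ b

/-! ## The main sums -/

/-- positive sum with the Fejer kernel -/
noncomputable def SF (a : ℝ) (X k : ℕ) (c : Finset ℕ) (l t : ℝ) : ℝ :=
  ∑ s ∈ (PA a X).powersetCard k, ∑ t' ∈ (PA a X).powersetCard k,
    fej (l * (Real.log (prodS c ^ 2 * (prodS s * prodS t') : ℕ) - t))

/-- the sum over v, without characters modulo Q -/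
noncomputable def UJ (a : ℝ) (z X k : ℕ) (ρ : ℕ → ℝ) (c : Finset ℕ) (F : ℝ → ℝ) (l t : ℝ)
    (v : ℕ) : ℝ :=
  F v * ∑ s ∈ (PA a X).powersetCard k, ∑ t' ∈ (PA a X).powersetCard k,
    JJ z X ρ c (prodS s * prodS t') v *
      fej (l * (Real.log (prodS c ^ 2 * (prodS s * prodS t') : ℕ) - t))

/-- P2_TC0: upper bound for any c, lossy. -/
def P2_TC0 : Prop := ∀ a : ℝ, 2 < a → ∀ (z X : ℕ), 3 ≤ X → ∀ (C0 : ℕ), 1 ≤ C0 → ∀ ρ : ℕ → ℝ,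
  SWt z X (PA a X) (cc a) C0 ρ → (∀ p ∈ PA a X, ¬ p ∣ Qz z) →
  ∀ (c : Finset ℕ) (k w V : ℕ) (F : ℝ → ℝ) (I l t : ℝ),
  c ⊆ PA a X → 1 ≤ w → (∀ p : ℕ, p.Prime → p ∣ w → p ∣ Qz z) →
  AntitoneOn F (Set.Ici 0) → (∀ x, 0 ≤ F x) →
  (∀ V : ℝ, 0 ≤ V → ∫ x in (0 : ℝ)..V, F x ≤ I) → 0 < l → (V : ℝ) ≤ (X : ℝ) ^ (1 - cc a) →
  ∑ v ∈ (Finset.Icc 1 V).filter (fun v => w ∣ v), UJ a z X k ρ c F l t v ≤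
    3 ^ c.card * GG X ρ * (I / w) * (1 + Real.log X) ^ (2 * C0) * SF a X k c l t

/-- P2_TC: upper bound for small c. -/
def P2_TC : Prop := ∀ a : ℝ, 2 < a → ∀ (z C0 i0 : ℕ), 1 ≤ C0 → ∀ l ε : ℝ, 0 < l → 0 < ε →
  ∃ X0 : ℕ, ∀ X ≥ X0, ∀ ρ : ℕ → ℝ, SWt z X (PA a X) (cc a) C0 ρ →
  ∀ (c : Finset ℕ) (w V : ℕ) (F : ℝ → ℝ) (I t : ℝ),
  c ⊆ PA a X → c.card ≤ i0 → 1 ≤ w → (∀ p : ℕ, p.Prime → p ∣ w → p ∣ Qz z) →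
  AntitoneOn F (Set.Ici 0) → (∀ x, 0 ≤ F x) →
  (∀ V : ℝ, 0 ≤ V → ∫ x in (0 : ℝ)..V, F x ≤ I) → (V : ℝ) ≤ (X : ℝ) ^ (1 - cc a) →
  ∑ v ∈ (Finset.Icc 1 V).filter (fun v => w ∣ v), UJ a z X (kA a X - c.card) ρ c F l t v ≤
    3 ^ c.card * GG X ρ * (I / w) * ((1 + ε) * SF a X (kA a X - c.card) c l t +
      ε / Real.log X * (CA a X (kA a X - c.card)) ^ 2)

/-- P2_TD: expansion of rhoQ in characters. -/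
def P2_TD : Prop := ∀ (z r v f X k : ℕ) (a l t : ℝ), 2 ≤ z → FundRes z r → 1 ≤ v →
  (∀ p ∈ PA a X, ¬ p ∣ Qz z) →
  |(∑ s ∈ (PA a X).powersetCard k, ∑ t' ∈ (PA a X).powersetCard k,
      (rhoQ z r (prodS s * prodS t') v : ℝ) *
      ((jacobiSym ((prodS s * prodS t' : ℕ) : ℤ) f : ℤ) : ℝ) *
      fej (l * (Real.log (prodS s * prodS t' : ℕ) - t))) -
    (if f = 1 then rbar z r v * SF a X k ∅ l t else 0)| ≤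
  (Qz z * 8 * 2 ^ z : ℝ) * ∑ ψ : DirichletCharacter ℂ (Qz z * (qpart z v) ^ 2),
    (if ψ = 1 ∧ f = 1 then 0 else
      ‖∑ s ∈ (PA a X).powersetCard k, ∑ t' ∈ (PA a X).powersetCard k,
        ψ (prodS s : ZMod (Qz z * (qpart z v) ^ 2)) * ((jacobiSym (prodS s : ℤ) f : ℤ) : ℂ) *
        (ψ (prodS t' : ZMod (Qz z * (qpart z v) ^ 2)) * ((jacobiSym (prodS t' : ℤ) f : ℤ) : ℂ)) *
        ((fej (l * (Real.log (prodS s) + Real.log (prodS t') - t)) : ℝ) : ℂ)‖)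

/-- P2_TE: the v with small part at the primes dividing Q. -/
def P2_TE : Prop := ∀ a : ℝ, 2 < a → ∀ (z r : ℕ), 2 ≤ z → FundRes z r → ∀ (C0 w : ℕ), 1 ≤ C0 →
  1 ≤ w → ∀ l ε : ℝ, 0 < l → 0 < ε → ∃ X0 : ℕ, ∀ X ≥ X0, ∀ ρ : ℕ → ℝ,
  SWt z X (PA a X) (cc a) C0 ρ → ∀ (V : ℕ) (F : ℝ → ℝ) (I t : ℝ),
  AntitoneOn F (Set.Ici 0) → (∀ x, 0 ≤ F x) →
  (∀ V : ℝ, 0 ≤ V → ∫ x in (0 : ℝ)..V, F x ≤ I) → (V : ℝ) ≤ (X : ℝ) ^ (1 - cc a) →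
  ∑ v ∈ (Finset.Icc 1 V).filter (fun v => qpart z v = w),
    F v * ∑ s ∈ SA a X, ∑ t' ∈ SA a X, (rhoQ z r (prodS s * prodS t') v : ℝ) *
      JJ z X ρ ∅ (prodS s * prodS t') v * fej (l * (Real.log (prodS s * prodS t' : ℕ) - t)) ≤
    GG X ρ * ((∑ v ∈ (Finset.Icc 1 V).filter (fun v => qpart z v = w), F v * rbar z r v) *
        SF a X (kA a X) ∅ l t +
      ε * I * (SF a X (kA a X) ∅ l t + (NA a X) ^ 2 / Real.log X))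

/-- P2_TA: the main term for one t. -/
def P2_TA : Prop := ∀ a : ℝ, 2 < a → ∀ (z r : ℕ), 2 ≤ z → FundRes z r → ∀ (C0 : ℕ), 1 ≤ C0 →
  ∀ l ε : ℝ, 0 < l → 0 < ε → ∃ X0 : ℕ, ∀ X ≥ X0, ∀ ρ : ℕ → ℝ,
  SWt z X (PA a X) (cc a) C0 ρ → ∀ (V : ℕ) (F : ℝ → ℝ) (I t : ℝ),
  AntitoneOn F (Set.Ici 0) → (∀ x, 0 ≤ F x) →
  (∀ V : ℝ, 0 ≤ V → ∫ x in (0 : ℝ)..V, F x ≤ I) → (V : ℝ) ≤ (X : ℝ) ^ (1 - cc a) →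
  ∑ v ∈ Finset.Icc 1 V,
    F v * ∑ s ∈ SA a X, ∑ t' ∈ SA a X, (rhoQ z r (prodS s * prodS t') v : ℝ) *
      JJ z X ρ ∅ (prodS s * prodS t') v * fej (l * (Real.log (prodS s * prodS t' : ℕ) - t)) ≤
    GG X ρ * (2 * PiR z r * (((∏ q ∈ (Finset.Icc 2 z).filter Nat.Prime, q : ℕ) : ℝ) * F 0 + I) *
        SF a X (kA a X) ∅ l t +
      ε * I * (SF a X (kA a X) ∅ l t + (NA a X) ^ 2 / Real.log X))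

/-- the sum over v for given c, s, t -/
noncomputable def MT (a : ℝ) (z r X : ℕ) (η : ℝ) (ρ : ℕ → ℝ) (c s t : Finset ℕ) : ℝ :=
  ∑ v ∈ Finset.Icc 1 ⌊(X : ℝ) ^ (1 - cc a)⌋₊,
    om X η v (prodS c ^ 2 * (prodS s * prodS t) : ℕ) / Qz z *
      ((rhoQ z r (prodS c ^ 2 * (prodS s * prodS t)) v : ℝ) * JJ z X ρ c (prodS s * prodS t) v)

/-- P2_TMa: pairs of disjoint sets. -/
def P2_TMa : Prop := ∀ a : ℝ, 2 < a → ∀ (z r : ℕ), 2 ≤ z → FundRes z r → ∀ η : ℝ, 0 < η →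
  η ≤ 1 → ∀ C0 : ℕ, 1 ≤ C0 → ∀ ε : ℝ, 0 < ε → ∃ X0 : ℕ, ∀ X ≥ X0, ∀ ρ : ℕ → ℝ,
  SWt z X (PA a X) (cc a) C0 ρ →
    ∑ s ∈ SA a X, ∑ t ∈ SA a X, MT a z r X η ρ ∅ s t ≤
      (1 + ε) * (PiR z r / (4 * Qz z)) * GG X ρ * η * √(X : ℝ) * (NA a X) ^ 2

/-- P2_TMb: pairs with a small intersection. -/
def P2_TMb : Prop := ∀ a : ℝ, 2 < a → ∀ (z r : ℕ), 2 ≤ z → FundRes z r → ∀ η : ℝ, 0 < η →
  η ≤ 1 → ∀ C0 i0 : ℕ, 1 ≤ C0 → ∃ X0 : ℕ, ∀ X ≥ X0, ∀ ρ : ℕ → ℝ,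
  SWt z X (PA a X) (cc a) C0 ρ → ∀ c ⊆ PA a X, c.card ≤ i0 →
    ∑ s ∈ (PA a X).powersetCard (kA a X - c.card),
      ∑ t ∈ (PA a X).powersetCard (kA a X - c.card), MT a z r X η ρ c s t ≤
      2 ^ (z + 5) * 3 ^ c.card * GG X ρ * η * √(X : ℝ) * (CA a X (kA a X - c.card)) ^ 2

/-- P2_TMc: pairs with any intersection, lossy. -/
def P2_TMc : Prop := ∀ a : ℝ, 2 < a → ∀ (z r : ℕ), 2 ≤ z → FundRes z r → ∀ η : ℝ, 0 < η →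
  η ≤ 1 → ∀ C0 : ℕ, 1 ≤ C0 → ∃ X0 : ℕ, ∀ X ≥ X0, ∀ ρ : ℕ → ℝ,
  SWt z X (PA a X) (cc a) C0 ρ → ∀ c ⊆ PA a X, c.card ≤ kA a X →
    ∑ s ∈ (PA a X).powersetCard (kA a X - c.card),
      ∑ t ∈ (PA a X).powersetCard (kA a X - c.card), MT a z r X η ρ c s t ≤
      2 ^ (z + 5) * 3 ^ c.card * (1 + Real.log X) ^ (2 * C0) * GG X ρ * η * √(X : ℝ) *
        (CA a X (kA a X - c.card)) ^ 2

/-- P2_TM: the near collision bound. -/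
def P2_TM : Prop := ∀ a : ℝ, 2 < a → ∀ (z r : ℕ), 2 ≤ z → FundRes z r → ∀ η : ℝ, 0 < η →
  η ≤ 1 → ∀ C0 : ℕ, 1 ≤ C0 → ∀ ε : ℝ, 0 < ε → ∃ X0 : ℕ, ∀ X ≥ X0, ∀ ρ : ℕ → ℝ,
  SWt z X (PA a X) (cc a) C0 ρ →
    ∑ D ∈ DD z r X η, wt ρ D * SD D (SA a X) (fun _ => 1) ≤
      (1 + ε) * (PiR z r / (2 * Qz z)) * GG X ρ * η * √(X : ℝ) * (NA a X) ^ 2

/-! ## Assembly -/

/-- bad discriminants -/
def BadA (a : ℝ) (X D : ℕ) : Prop := ∃ (K : Type) (_ : Field K) (_ : NumberField K),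
  Module.finrank ℚ K = 2 ∧ NumberField.discr K = (D : ℤ) ∧ ¬ SmallGen K ((Real.log X) ^ a / 2)

/-- P2_AS0: few bad discriminants, in the weighted sense. -/
def P2_AS0 : Prop := ∀ a : ℝ, 2 < a → ∀ C0 : ℕ, 1 ≤ C0 → ∀ ε : ℝ, 0 < ε → ∃ z0 : ℕ, ∀ z ≥ z0,
  ∃ η1 : ℝ, 0 < η1 ∧ ∀ η : ℝ, 0 < η → η ≤ η1 → ∀ r : ℕ, FundRes z r → ∃ X0 : ℕ, ∀ X ≥ X0,
  ∀ ρ : ℕ → ℝ, SWt z X (PA a X) (cc a) C0 ρ →
    ∑ D ∈ (FD z r X η).filter (fun D => BadA a X D), wt ρ D ≤ ε * WW z X η ρ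

/-- P2_AS1: few bad discriminants in a short interval. -/
def P2_AS1 : Prop := ∀ a : ℝ, 2 < a → ∀ ε : ℝ, 0 < ε → ∃ η : ℝ, 0 < η ∧ η ≤ 1 ∧ ∃ X0 : ℕ,
  ∀ X ≥ X0,
  (((Finset.Ioc X ⌊(1 + η) * X⌋₊).filter (fun D => IsFund D ∧ BadA a X D)).card : ℝ) ≤ ε * η * X

/-! ## Upper bound sieve weights -/

/-- P2_BF: Bonferroni inequalities with weights. -/
def P2_BF : Prop := ∀ (P : Finset ℕ) (x : ℕ → ℝ) (b : ℕ), (∀ p ∈ P, 0 ≤ x p ∧ x p ≤ 1) →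
  ∏ p ∈ P, (1 - x p) ≤
    ∑ A ∈ P.powerset.filter (fun A => A.card ≤ 2 * b), (-1 : ℝ) ^ A.card * ∏ p ∈ A, x p ∧
  ∑ A ∈ P.powerset.filter (fun A => A.card ≤ 2 * b), (-1 : ℝ) ^ A.card * ∏ p ∈ A, x p ≤
    ∏ p ∈ P, (1 - x p) + (∑ p ∈ P, x p) ^ (2 * b + 1) / (2 * b + 1).factorial

/-- block sieve weights -/
noncomputable def rhoB (J : ℕ) (B : ℕ → Finset ℕ) (b : ℕ → ℕ) (d : ℕ) : ℝ :=
  if Squarefree d ∧ (∀ p ∈ d.primeFactors, ∃ j < J, p ∈ B j) ∧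
      (∀ j < J, (d.primeFactors ∩ B j).card ≤ 2 * b j) then
    (-1 : ℝ) ^ d.primeFactors.card else 0

/-- P2_HB: product formula for the block weights. -/
def P2_HB : Prop := ∀ (J X : ℕ) (B : ℕ → Finset ℕ) (b : ℕ → ℕ) (x : ℕ → ℝ),
  (∀ j < J, ∀ p ∈ B j, p.Prime) → (∀ i < J, ∀ j < J, i ≠ j → Disjoint (B i) (B j)) →
  (∀ d, rhoB J B b d ≠ 0 → d ≤ X) →
  ∑ d ∈ Finset.Icc 1 X, rhoB J B b d * ∏ p ∈ d.primeFactors, x p =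
    ∏ j ∈ Finset.range J, ∑ A ∈ (B j).powerset.filter (fun A => A.card ≤ 2 * b j),
      (-1 : ℝ) ^ A.card * ∏ p ∈ A, x p

/-- P2_HD: the sums over multiples of g. -/
def P2_HD : Prop := ∀ (J X : ℕ) (B : ℕ → Finset ℕ) (b : ℕ → ℕ) (L : ℝ) (C0 : ℕ), 0 ≤ L →
  (∀ j < J, ∀ p ∈ B j, p.Prime) → (∀ i < J, ∀ j < J, i ≠ j → Disjoint (B i) (B j)) →
  (∀ d, rhoB J B b d ≠ 0 → d ≤ X) → (∀ j < J, ∑ p ∈ B j, (1 : ℝ) / p ≤ L) →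
  Real.exp (3 * L) ≤ C0 → ∀ g : ℕ, Squarefree g →
    |∑ d ∈ (Finset.Icc 1 X).filter (fun d => g ∣ d), rhoB J B b d / d| ≤
      (C0 : ℝ) ^ g.primeFactors.card * GG X (rhoB J B b) / g

/-- P2_CH: Chebyshev type bounds. -/
def P2_CH : Prop := ∃ L : ℝ, 0 < L ∧ (∀ x : ℝ, 1 ≤ x →
  ∑ p ∈ (Finset.Ioc ⌊√x⌋₊ ⌊x⌋₊).filter Nat.Prime, (1 : ℝ) / p ≤ L) ∧
  (∀ y : ℕ, ∑ p ∈ PP y, (1 : ℝ) / p ≤ L) ∧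
  ∀ N : ℕ, 2 ≤ N → (((Finset.Icc 2 N).filter Nat.Prime).card : ℝ) ≤ L * N / Real.log N

/-- P2_MP: Mertens product, upper bound. -/
def P2_MP : Prop := ∀ N : ℕ, 2 ≤ N →
  ∏ p ∈ (Finset.Icc 2 N).filter Nat.Prime, (1 - (1 : ℝ) / p) ≤ 1 / Real.log N

/-- blocks of primes -/
noncomputable def blk (z : ℕ) (a : ℝ) (X : ℕ) (δ : ℝ) (j : ℕ) : Finset ℕ :=
  (Finset.Ioc ⌊(X : ℝ) ^ (δ / 8 / 2 ^ (j + 1))⌋₊ ⌊(X : ℝ) ^ (δ / 8 / 2 ^ j)⌋₊).filter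
    (fun p => p.Prime ∧ z < p ∧ p ∉ PA a X)

/-- the weights -/
noncomputable def rhoX (z : ℕ) (a : ℝ) (X : ℕ) (δ : ℝ) : ℕ → ℝ :=
  rhoB X (blk z a X δ) (fun j => j + 1)

/-- P2_BHa: level of the weights. -/
def P2_BHa : Prop := ∀ (z : ℕ) (a : ℝ) (X : ℕ) (δ : ℝ) (d : ℕ), 2 ≤ z → 1 ≤ X → 0 < δ →
  rhoX z a X δ d ≠ 0 → (d : ℝ) ≤ (X : ℝ) ^ δ

/-- P2_BHc: size of the density of the weights. -/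
def P2_BHc : Prop := ∀ δ : ℝ, 0 < δ → δ ≤ 1 → ∃ C0 : ℕ, 1 ≤ C0 ∧ ∀ z : ℕ, 2 ≤ z → ∀ a : ℝ, 2 < a →
  ∃ X0 : ℕ, ∀ X ≥ X0, ((Real.log X) ^ C0)⁻¹ ≤ GG X (rhoX z a X δ) ∧
    GG X (rhoX z a X δ) * ∏ q ∈ (Finset.Icc 3 z).filter Nat.Prime, (1 - (1 : ℝ) / q) ≤
      C0 / Real.log X

/-- P2_BH: existence of upper bound sieve weights. -/
def P2_BH : Prop := ∀ δ : ℝ, 0 < δ → δ ≤ 1 → ∃ C0 : ℕ, 1 ≤ C0 ∧ ∀ z : ℕ, 2 ≤ z → ∀ a : ℝ, 2 < a →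
  ∃ X0 : ℕ, ∀ X ≥ X0, ∃ ρ : ℕ → ℝ, SWt z X (PA a X) δ C0 ρ ∧ ρ 1 = 1 ∧
    GG X ρ * ∏ q ∈ (Finset.Icc 3 z).filter Nat.Prime, (1 - (1 : ℝ) / q) ≤ C0 / Real.log X

/-- P2_RC: number of residues coprime to the odd primes up to z. -/
def P2_RC : Prop := ∀ z : ℕ,
  (((Finset.range (Qz z)).filter (fun r => ∀ q ∈ (Finset.Icc 3 z).filter Nat.Prime,
    ¬ q ∣ r)).card : ℝ) = Qz z * ∏ q ∈ (Finset.Icc 3 z).filter Nat.Prime, (1 - (1 : ℝ) / q)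

/-- P2_AP: few bad prime discriminants in a short interval. -/
def P2_AP : Prop := ∀ a : ℝ, 2 < a → ∀ ε : ℝ, 0 < ε → ∃ η : ℝ, 0 < η ∧ η ≤ 1 ∧ ∃ X0 : ℕ,
  ∀ X ≥ X0,
  (((Finset.Ioc X ⌊(1 + η) * X⌋₊).filter (fun D => (∃ p : ℕ, p.Prime ∧ (D = p ∨ D = 4 * p)) ∧
    IsFund D ∧ BadA a X D)).card : ℝ) ≤ ε * η * X / Real.log X

end Pool.Agent.H38R2.CG2
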