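import Pool.Agent.H38R2.CG2.Stubs

/-!
# Task T2: sum over d of the number of roots
-/

set_option autoImplicit false

namespace Pool.Agent.H38R2.CG2

open Finset Filter NumberField Pool.Agent.H38R2.CG
open scoped Classical

namespace T2h

lemma jac_bd (m : ℤ) (p : ℕ) :
    0 ≤ 1 + (jacobiSym m p : ℝ) ∧ 1 + (jacobiSym m p : ℝ) ≤ 2 := by
  rcases jacobiSym.trichotomy m p with h | h | h <;> rw [h] <;> norm_num

lemma prime_dvd_prodS {s : Finset ℕ} (hs : ∀ p ∈ s, p.Prime) {q : ℕ} (hq : q.Prime)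
    (h : q ∣ prodS s) : q ∈ s := by
  unfold prodS at h
  obtain ⟨p, hp, hqp⟩ := (Prime.dvd_finsetProd_iff hq.prime _).1 h
  have := (Nat.prime_dvd_prime_iff_eq hq (hs p hp)).1 hqp
  rw [this]; exact hp

/-- the Jacobi symbol does not see the square -/
lemma jac_sq (g m p : ℕ) (hp : p.Prime) (hg : ¬ p ∣ g) :
    jacobiSym ((g ^ 2 * m : ℕ) : ℤ) p = jacobiSym (m : ℤ) p := by
  push_cast
  rw [jacobiSym.mul_left, jacobiSym.pow_left]
  have hgcd : Int.gcd (g : ℤ) p = 1 := by
    rw [Int.gcd_natCast_natCast]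
    exact ((Nat.Prime.coprime_iff_not_dvd hp).mpr hg).symm
  rw [jacobiSym.sq_one hgcd, one_mul]

/-- local factor -/
noncomputable def xx (m v p : ℕ) : ℝ :=
  if p.Prime then (if p ∣ v then 1 / (p : ℝ) else (1 + (jacobiSym (m : ℤ) p : ℝ)) / p) else 0

lemma xx_bd (m v p : ℕ) : 0 ≤ xx m v p ∧ xx m v p ≤ 1 := by
  unfold xx
  split_ifs with h1 h2
  · have hp : (2 : ℝ) ≤ p := by exact_mod_cast h1.two_le
    constructor
    · positivity
    · rw [div_le_one (by linarith)]
      linarith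
  · have hp : (2 : ℝ) ≤ p := by exact_mod_cast h1.two_le
    obtain ⟨g1, g2⟩ := jac_bd (m : ℤ) p
    constructor
    · positivity
    · rw [div_le_one (by linarith)]
      linarith
  · norm_num

lemma xx_prod (m v d : ℕ) (hd : Squarefree d) :
    ∏ p ∈ d.primeFactors, xx m v p =
      1 / (d : ℝ) * ∏ p ∈ d.primeFactors.filter (fun p => ¬ p ∣ v),
        (1 + (jacobiSym (m : ℤ) p : ℝ)) := by
  have h1 : ∀ p ∈ d.primeFactors, xx m v p =
      (p : ℝ)⁻¹ * (if ¬ p ∣ v then (1 + (jacobiSym (m : ℤ) p : ℝ)) else 1) := by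
    intro p hp
    unfold xx
    rw [if_pos (Nat.prime_of_mem_primeFactors hp)]
    by_cases h : p ∣ v
    · rw [if_pos h, if_neg (by simpa using h)]
      ring
    · rw [if_neg h, if_pos h]
      ring
  rw [Finset.prod_congr rfl h1, Finset.prod_mul_distrib, Finset.prod_filter]
  congr 1
  rw [Finset.prod_inv_distrib, one_div]
  congr 1
  have h2 := Nat.prod_primeFactors_of_squarefree hd
  calc ∏ p ∈ d.primeFactors, (p : ℝ) = ((∏ p ∈ d.primeFactors, p : ℕ) : ℝ) := by
        rw [Nat.cast_prod]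
    _ = (d : ℝ) := by rw [h2]

end T2h

open T2h in
theorem T2_T2 : P2_R1 → P2_R2 → P2_T2 := by
  intro hR1 hR2 z r X v P δ C0 ρ c s t hv hW hP hc hs ht hcs hct hst
  obtain ⟨m, hm⟩ : ∃ m, m = prodS s * prodS t := ⟨_, rfl⟩
  obtain ⟨g, hg⟩ : ∃ g, g = prodS c := ⟨_, rfl⟩
  have hR2' := hR2 z r v c s t hv hcs hct hst (by
    intro p hp
    rcases Finset.mem_union.mp hp with hp | hp
    · rcases Finset.mem_union.mp hp with hp | hp
      · exact hP p (hc hp)
      · exact hP p (hs hp)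
    · exact hP p (ht hp))
  rw [← hg, ← hm] at hR2' ⊢
  have hne : ∀ S : Finset ℕ, S ⊆ P → prodS S ≠ 0 := by
    intro S hS
    unfold prodS
    exact Finset.prod_ne_zero_iff.mpr (fun p hp => (hP p (hS hp)).1.ne_zero)
  have hn1 : 1 ≤ g ^ 2 * m := by
    have h1 : g ^ 2 * m ≠ 0 := by
      rw [hg, hm]
      exact mul_ne_zero (pow_ne_zero _ (hne c hc)) (mul_ne_zero (hne s hs) (hne t ht))
    omega
  -- the inner sum
  obtain ⟨K, hK⟩ : ∃ K : ℝ, K = ∑ d ∈ Finset.Icc 1 X, ρ d / d *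
    ∏ p ∈ d.primeFactors.filter (fun p => ¬ p ∣ v), (1 + (jacobiSym (m : ℤ) p : ℝ)) := ⟨_, rfl⟩
  have hK0 : 0 ≤ K := by
    have h1 := hW.pos (xx m v) (xx_bd m v)
    have h2 : ∑ d ∈ Finset.Icc 1 X, ρ d * ∏ p ∈ d.primeFactors, xx m v p = K := by
      rw [hK]
      refine Finset.sum_congr rfl ?_
      intro d _
      by_cases h0 : ρ d = 0
      · rw [h0]; simp
      · rw [xx_prod m v d (hW.supp d h0).2.2.1]
        ring
    rw [← h2]
    exact h1
  have hterm : ∀ d ∈ Finset.Icc 1 X, ρ d / d * (RR z r (g ^ 2 * m) v d : ℝ) =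
      (rho z r (g ^ 2 * m) v : ℝ) * (ρ d / d *
        ∏ p ∈ d.primeFactors.filter (fun p => ¬ p ∣ v), (1 + (jacobiSym (m : ℤ) p : ℝ))) := by
    intro d _
    by_cases h0 : ρ d = 0
    · rw [h0]; simp
    · obtain ⟨h1, _, h3, h4, h5⟩ := hW.supp d h0
      have hcop : d.Coprime (g ^ 2 * m) := by
        refine Nat.Coprime.symm (Nat.coprime_of_dvd ?_)
        intro q hq hqn hqd
        have hqP : q ∈ P := by
          rcases (Nat.Prime.dvd_mul hq).1 hqn with h | h
          · have h' := hq.dvd_of_dvd_pow h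
            rw [hg] at h'
            exact hc (prime_dvd_prodS (fun p hp => (hP p (hc hp)).1) hq h')
          · rw [hm] at h
            rcases (Nat.Prime.dvd_mul hq).1 h with h | h
            · exact hs (prime_dvd_prodS (fun p hp => (hP p (hs hp)).1) hq h)
            · exact ht (prime_dvd_prodS (fun p hp => (hP p (ht hp)).1) hq h)
        exact h5 q hqP hqd
      rw [hR1 z r (g ^ 2 * m) v d hn1 hv h3 h4 hcop]
      have h6 : ∏ p ∈ d.primeFactors.filter (fun p => ¬ p ∣ v),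
          (1 + (jacobiSym ((g ^ 2 * m : ℕ) : ℤ) p : ℝ)) =
          ∏ p ∈ d.primeFactors.filter (fun p => ¬ p ∣ v), (1 + (jacobiSym (m : ℤ) p : ℝ)) := by
        refine Finset.prod_congr rfl ?_
        intro p hp
        have hpd := (Finset.mem_filter.mp hp).1
        have hpp := Nat.prime_of_mem_primeFactors hpd
        have hpdd := Nat.dvd_of_mem_primeFactors hpd
        have hpg : ¬ p ∣ g := by
          intro h
          rw [hg] at h
          exact h5 p (hc (prime_dvd_prodS (fun p hp => (hP p (hc hp)).1) hpp h)) hpdd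
        rw [jac_sq g m p hpp hpg]
      rw [h6]
      ring
  rw [Finset.sum_congr rfl hterm, ← Finset.mul_sum, ← hK]
  refine le_trans (mul_le_mul_of_nonneg_right hR2' hK0) (le_of_eq ?_)
  unfold JJ
  rw [← hK]
  ring

end Pool.Agent.H38R2.CG2
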