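import Pool.Agent.H38R2.CG2.Stubs

/-!
# Upper bound for small c
-/

set_option autoImplicit false

namespace Pool.Agent.H38R2.CG2

open Finset Filter NumberField Pool.Agent.H38R2.CG
open scoped Classical

namespace TCh

theorem tau_nonneg (c : Finset ℕ) (v : ℕ) : 0 ≤ tau c v := by
  unfold tau
  exact Finset.prod_nonneg (fun p _ => by positivity)

/-- primes dividing Qz z are at most max z 2 -/
theorem not_dvd_Qz (z p : ℕ) (hp : p.Prime) (h1 : z < p) (h2 : 2 < p) : ¬ p ∣ Qz z := by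
  intro h
  unfold Qz at h
  rcases (Nat.Prime.dvd_mul hp).1 h with h | h
  · have : p ∣ 2 ^ 4 := by simpa using h
    have := (Nat.prime_dvd_prime_iff_eq hp Nat.prime_two).1 (hp.dvd_of_dvd_pow this)
    omega
  · rcases (Prime.dvd_finsetProd_iff hp.prime _).1 h with ⟨l, hl, hl2⟩
    have hl3 := hp.dvd_of_dvd_pow hl2
    rw [Finset.mem_filter, Finset.mem_Icc] at hl
    have := Nat.le_of_dvd (by omega) hl3
    omega

theorem two_dvd_Qz (z : ℕ) : 2 ∣ Qz z := by
  unfold Qz
  exact Dvd.dvd.mul_right (by norm_num) _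

theorem coprime_two (z f : ℕ) (h : f.Coprime (Qz z)) : f.Coprime (2 * 1) := by
  rw [mul_one]
  exact Nat.Coprime.coprime_dvd_right (two_dvd_Qz z) h

theorem yA_large (a : ℝ) (ha : 2 < a) (N : ℕ) : ∃ X0 : ℕ, ∀ X ≥ X0, N ≤ yA a X := by
  have h1 : Tendsto (fun X : ℕ => (Real.log X) ^ a / 4) atTop atTop := by
    apply Tendsto.atTop_div_const (by norm_num)
    exact (tendsto_rpow_atTop (by linarith)).comp
      (Real.tendsto_log_atTop.comp tendsto_natCast_atTop_atTop)
  rcases (h1.eventually_ge_atTop (N : ℝ)).exists_forall_of_atTop with ⟨X0, hX0⟩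
  exact ⟨X0, fun X hX => Nat.le_floor (hX0 X hX)⟩

theorem prodS_pos (a : ℝ) (X : ℕ) (s : Finset ℕ) (hs : s ⊆ PA a X) : 0 < prodS s := by
  unfold prodS
  apply Finset.prod_pos
  intro p hp
  have := hs hp
  unfold PA PP at this
  rw [Finset.mem_filter] at this
  exact this.2.pos

theorem char_one (x : ZMod 1) : (1 : DirichletCharacter ℂ 1) x = 1 :=
  MulChar.one_apply (isUnit_of_subsingleton x)

/-- the bilinear sum -/
noncomputable def G (a : ℝ) (X k : ℕ) (c : Finset ℕ) (l t : ℝ) (f : ℕ) : ℝ :=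
  ∑ s ∈ (PA a X).powersetCard k, ∑ t' ∈ (PA a X).powersetCard k,
    ((jacobiSym ((prodS s * prodS t' : ℕ) : ℤ) f : ℤ) : ℝ) *
      fej (l * (Real.log (prodS c ^ 2 * (prodS s * prodS t') : ℕ) - t))

theorem jac_abs_le (m : ℤ) (f : ℕ) : |((jacobiSym m f : ℤ) : ℝ)| ≤ 1 := by
  rcases jacobiSym.trichotomy m f with h | h | h <;> rw [h] <;> norm_num

theorem G_le_SF (hFJ : P2_FJ) (a : ℝ) (X k : ℕ) (c : Finset ℕ) (l t : ℝ) (f : ℕ) :
    |G a X k c l t f| ≤ SF a X k c l t := by
  unfold G SF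
  refine (Finset.abs_sum_le_sum_abs _ _).trans (Finset.sum_le_sum (fun s _ => ?_))
  refine (Finset.abs_sum_le_sum_abs _ _).trans (Finset.sum_le_sum (fun t' _ => ?_))
  rw [abs_mul, abs_of_nonneg (hFJ.2.1 _)]
  exact mul_le_of_le_one_left (hFJ.2.1 _) (jac_abs_le _ _)

theorem G_le_b (hFS : P2_FS) (a : ℝ) (X k : ℕ) (c : Finset ℕ) (hc : c ⊆ PA a X) (l t : ℝ) (f : ℕ)
    (hl : 0 < l) (b : ℝ) (hb : 0 ≤ b)
    (h : ∀ ξ : ℝ, |ξ| ≤ l → ‖∑ s ∈ (PA a X).powersetCard k,
      ((jacobiSym (prodS s : ℤ) f : ℤ) : ℂ) * Complex.exp (ξ * Real.log (prodS s) * Complex.I)‖ ≤ b) :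
    |G a X k c l t f| ≤ b ^ 2 := by
  have h1 := hFS (Finset ℕ) ((PA a X).powersetCard k)
    (fun s => ((jacobiSym (prodS s : ℤ) f : ℤ) : ℂ)) (fun s => Real.log (prodS s)) l
    (t - 2 * Real.log (prodS c)) b hl hb (by simpa using h)
  have h2 : ((G a X k c l t f : ℝ) : ℂ) =
      ∑ i ∈ (PA a X).powersetCard k, ∑ j ∈ (PA a X).powersetCard k,
        ((jacobiSym (prodS i : ℤ) f : ℤ) : ℂ) * ((jacobiSym (prodS j : ℤ) f : ℤ) : ℂ) *
        ((fej (l * (Real.log (prodS i) + Real.log (prodS j) -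
          (t - 2 * Real.log (prodS c)))) : ℝ) : ℂ) := by
    unfold G
    rw [Complex.ofReal_sum]
    apply Finset.sum_congr rfl
    intro s hs
    rw [Complex.ofReal_sum]
    apply Finset.sum_congr rfl
    intro t' ht'
    have ps := prodS_pos a X s (Finset.mem_powersetCard.1 hs).1
    have pt := prodS_pos a X t' (Finset.mem_powersetCard.1 ht').1
    have pc := prodS_pos a X c hc
    have e1 : Real.log ((prodS c ^ 2 * (prodS s * prodS t') : ℕ) : ℝ) - t =
        Real.log (prodS s) + Real.log (prodS t') - (t - 2 * Real.log (prodS c)) := by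
      push_cast
      rw [Real.log_mul (by positivity) (by positivity), Real.log_mul (by positivity) (by positivity),
        Real.log_pow]
      push_cast
      ring
    rw [e1]
    have e2 : jacobiSym ((prodS s * prodS t' : ℕ) : ℤ) f =
        jacobiSym (prodS s : ℤ) f * jacobiSym (prodS t' : ℤ) f := by
      push_cast
      exact jacobiSym.mul_left _ _ _
    rw [e2]
    push_cast
    ring
  rw [← h2, Complex.norm_real, Real.norm_eq_abs] at h1
  exact h1

end TCh

open TCh in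
theorem T2_TC : P2_NB → P2_FJ → P2_FS → P2_JX → P2_KB → P2_HS → P2_CC7 → P2_NBAD → P2_TC := by
  intro _ hFJ hFS hJX hKB hHS hCC7 hNBAD a ha z C0 i0 hC0 l ε hl hε
  rcases hCC7 a ha 1 le_rfl (2 * C0) ε hε with ⟨X1, hX1⟩
  rcases hNBAD a ha 1 le_rfl (2 * C0) i0 l ε hl hε with ⟨X2, hX2⟩
  rcases yA_large a ha (z + 2) with ⟨X3, hX3⟩
  refine ⟨max (max X1 X2) (max X3 3), fun X hX ρ hρ c w V F I t hc hci hw hwQ hF hF0 hFI hV => ?_⟩
  have hXX1 : X1 ≤ X := le_trans (le_trans (le_max_left _ _) (le_max_left _ _)) hX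
  have hXX2 : X2 ≤ X := le_trans (le_trans (le_max_right _ _) (le_max_left _ _)) hX
  have hXX3 : X3 ≤ X := le_trans (le_trans (le_max_left _ _) (le_max_right _ _)) hX
  have hXX4 : 3 ≤ X := le_trans (le_trans (le_max_right _ _) (le_max_right _ _)) hX
  have hXpos : (0 : ℝ) < X := by exact_mod_cast (by omega : 0 < X)
  have hX1le : (1 : ℝ) ≤ X := by exact_mod_cast (by omega : 1 ≤ X)
  have hlog : 0 < Real.log X := Real.log_pos (by exact_mod_cast (by omega : 1 < X))
  have hP : ∀ p ∈ PA a X, p.Prime ∧ ¬ p ∣ Qz z := by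
    intro p hp
    unfold PA PP at hp
    rw [Finset.mem_filter, Finset.mem_Ioc] at hp
    have := hX3 X hXX3
    exact ⟨hp.2, not_dvd_Qz z p hp.2 (by omega) (by omega)⟩
  have hGG : 0 ≤ GG X ρ := le_trans (by positivity) hρ.low
  have hI : 0 ≤ I := by simpa using hFI 0 le_rfl
  set k := kA a X - c.card with hk
  rcases hX2 X hXX2 k (by omega) (by omega) with ⟨b, hb0, hb, hb2⟩
  set Fam := (Finset.Icc 1 X).filter
    (fun f => Squarefree f ∧ f.Coprime (Qz z) ∧ ∀ p ∈ c, ¬ p ∣ f) with hFam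
  set SV := (Finset.Icc 1 V).filter (fun v => w ∣ v) with hSV
  -- expansion
  have hexp : ∀ v ∈ SV, UJ a z X k ρ c F l t v =
      ∑ f ∈ Fam, G a X k c l t f * (F v * (tau c v * kap X ρ f v)) := by
    intro v hv
    rw [hSV, Finset.mem_filter, Finset.mem_Icc] at hv
    have hv2 : (v : ℝ) * (X : ℝ) ^ (cc a) ≤ X := by
      have h1 : (v : ℝ) ≤ (X : ℝ) ^ (1 - cc a) := le_trans (by exact_mod_cast hv.1.2) hV
      calc (v : ℝ) * (X : ℝ) ^ (cc a) ≤ (X : ℝ) ^ (1 - cc a) * (X : ℝ) ^ (cc a) := by gcongr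
        _ = X := by rw [← Real.rpow_add hXpos]; simp
    unfold UJ
    have h3 : ∀ s t' : Finset ℕ, JJ z X ρ c (prodS s * prodS t') v *
      fej (l * (Real.log (prodS c ^ 2 * (prodS s * prodS t') : ℕ) - t)) =
      ∑ f ∈ Fam, (tau c v * kap X ρ f v) * (((jacobiSym ((prodS s * prodS t' : ℕ) : ℤ) f : ℤ) : ℝ) *
        fej (l * (Real.log (prodS c ^ 2 * (prodS s * prodS t') : ℕ) - t))) := by
      intro s t'
      rw [hJX z X (PA a X) (cc a) C0 ρ c (prodS s * prodS t') v hρ hc hP hv.1.1 hv2,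
        mul_assoc, Finset.sum_mul, Finset.mul_sum]
      apply Finset.sum_congr rfl
      intro f _
      ring
    simp_rw [h3]
    unfold G
    rw [Finset.mul_sum]
    simp_rw [Finset.sum_mul, Finset.mul_sum]
    rw [Finset.sum_congr rfl (fun s _ => Finset.sum_comm), Finset.sum_comm]
    apply Finset.sum_congr rfl
    intro f _
    apply Finset.sum_congr rfl
    intro s _
    apply Finset.sum_congr rfl
    intro t' _
    ring
  rw [Finset.sum_congr rfl hexp, Finset.sum_comm]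
  -- bound for each f
  have hf : ∀ f ∈ Fam, ∑ v ∈ SV, G a X k c l t f * (F v * (tau c v * kap X ρ f v)) ≤
      |G a X k c l t f| * ((2 * C0 : ℝ) ^ f.primeFactors.card / f) *
        (3 ^ c.card * GG X ρ * (I / w)) := by
    intro f hf
    rw [hFam, Finset.mem_filter, Finset.mem_Icc] at hf
    obtain ⟨⟨hf1, _⟩, hfs, hfQ, hfc⟩ := hf
    have hwf : w.Coprime f := by
      apply Nat.coprime_of_dvd
      intro p hp hpw hpf
      have h1 := hwQ p hp hpw
      have h2 := Nat.dvd_gcd hpf h1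
      rw [hfQ] at h2
      exact hp.one_lt.ne' (Nat.dvd_one.1 h2)
    have hcp : ∀ p ∈ c, p.Prime ∧ ¬ p ∣ f ∧ ¬ p ∣ w := by
      intro p hp
      refine ⟨(hP p (hc hp)).1, hfc p hp, fun h => (hP p (hc hp)).2 (hwQ p (hP p (hc hp)).1 h)⟩
    have h1 := hKB z X V f w (PA a X) (cc a) C0 ρ c F I hρ hC0 hw hf1 hfs hwf hcp hF hF0 hFI
    calc ∑ v ∈ SV, G a X k c l t f * (F v * (tau c v * kap X ρ f v))
        ≤ ∑ v ∈ SV, |G a X k c l t f| * (F v * (tau c v * |kap X ρ f v|)) := by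
          apply Finset.sum_le_sum
          intro v _
          refine (le_abs_self _).trans ?_
          rw [abs_mul, abs_mul, abs_mul, abs_of_nonneg (hF0 _), abs_of_nonneg (tau_nonneg c v)]
      _ = |G a X k c l t f| * ∑ v ∈ SV, (F v * (tau c v * |kap X ρ f v|)) := by
          rw [Finset.mul_sum]
      _ ≤ |G a X k c l t f| *
          (3 ^ c.card * (2 * C0 : ℝ) ^ f.primeFactors.card * GG X ρ / f * (I / w)) :=
          mul_le_mul_of_nonneg_left h1 (abs_nonneg _)
      _ = _ := by ring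
  refine (Finset.sum_le_sum hf).trans ?_
  rw [← Finset.sum_mul, mul_comm]
  apply mul_le_mul_of_nonneg_left _ (by positivity)
  -- split the family
  have hSF0 : 0 ≤ SF a X k c l t := (abs_nonneg _).trans (G_le_SF hFJ a X k c l t 1)
  have hW0 : ∀ f : ℕ, 0 ≤ (2 * C0 : ℝ) ^ f.primeFactors.card / f := fun f => by positivity
  have hpt : ∀ f ∈ Fam, |G a X k c l t f| * ((2 * C0 : ℝ) ^ f.primeFactors.card / f) ≤
      (if f = 1 then SF a X k c l t else 0) +
      ((if (Squarefree f ∧ f.Coprime (2 * 1) ∧ BadF 1 (yA a X) f) then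
        SF a X k c l t * ((2 * C0 : ℝ) ^ f.primeFactors.card / f) else 0) +
      (if Squarefree f then b ^ 2 * ((2 * C0 : ℝ) ^ f.primeFactors.card / f) else 0)) := by
    intro f hf
    rw [hFam, Finset.mem_filter, Finset.mem_Icc] at hf
    obtain ⟨⟨hf1, _⟩, hfs, hfQ, hfc⟩ := hf
    have hG := G_le_SF hFJ a X k c l t f
    have hSW : 0 ≤ SF a X k c l t * ((2 * C0 : ℝ) ^ f.primeFactors.card / f) :=
      mul_nonneg hSF0 (hW0 f)
    have hbW : 0 ≤ b ^ 2 * ((2 * C0 : ℝ) ^ f.primeFactors.card / f) :=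
      mul_nonneg (by positivity) (hW0 f)
    rw [if_pos hfs]
    by_cases h1 : f = 1
    · rw [if_pos h1]
      have : (2 * C0 : ℝ) ^ f.primeFactors.card / f = 1 := by rw [h1]; simp
      have e2 : |G a X k c l t f| * ((2 * C0 : ℝ) ^ f.primeFactors.card / f) ≤ SF a X k c l t := by
        rw [this, mul_one]; exact hG
      split_ifs <;> linarith
    · rw [if_neg h1]
      by_cases hB : BadF 1 (yA a X) f
      · rw [if_pos ⟨hfs, coprime_two z f hfQ, hB⟩]
        have := mul_le_mul_of_nonneg_right hG (hW0 f)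
        linarith
      · rw [if_neg (fun h => hB h.2.2)]
        have h5 : |G a X k c l t f| ≤ b ^ 2 := by
          apply G_le_b hFS a X k c hc l t f hl b hb0
          intro ξ hξ
          have h6 := hb2 1 f hfs (coprime_two z f hfQ) (fun h => h1 h.2) hB ξ hξ
          simpa only [char_one, one_mul] using h6
        have := mul_le_mul_of_nonneg_right h5 (hW0 f)
        linarith
  refine (Finset.sum_le_sum hpt).trans ?_
  have hFsub : Fam ⊆ Finset.Icc 1 X := Finset.filter_subset _ _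
  have hmono : ∑ f ∈ Fam, ((if f = 1 then SF a X k c l t else 0) +
      ((if (Squarefree f ∧ f.Coprime (2 * 1) ∧ BadF 1 (yA a X) f) then
        SF a X k c l t * ((2 * C0 : ℝ) ^ f.primeFactors.card / f) else 0) +
      (if Squarefree f then b ^ 2 * ((2 * C0 : ℝ) ^ f.primeFactors.card / f) else 0))) ≤
      ∑ f ∈ Finset.Icc 1 X, ((if f = 1 then SF a X k c l t else 0) +
      ((if (Squarefree f ∧ f.Coprime (2 * 1) ∧ BadF 1 (yA a X) f) then
        SF a X k c l t * ((2 * C0 : ℝ) ^ f.primeFactors.card / f) else 0) +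
      (if Squarefree f then b ^ 2 * ((2 * C0 : ℝ) ^ f.primeFactors.card / f) else 0))) := by
    apply Finset.sum_le_sum_of_subset_of_nonneg hFsub
    intro f _ _
    have hSW : 0 ≤ SF a X k c l t * ((2 * C0 : ℝ) ^ f.primeFactors.card / f) :=
      mul_nonneg hSF0 (hW0 f)
    have hbW : 0 ≤ b ^ 2 * ((2 * C0 : ℝ) ^ f.primeFactors.card / f) :=
      mul_nonneg (by positivity) (hW0 f)
    split_ifs <;> linarith
  refine hmono.trans ?_
  rw [Finset.sum_add_distrib, Finset.sum_add_distrib]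
  have s1 : ∑ f ∈ Finset.Icc 1 X, (if f = 1 then SF a X k c l t else 0) = SF a X k c l t := by
    rw [Finset.sum_ite_eq' (Finset.Icc 1 X) 1 (fun _ => SF a X k c l t),
      if_pos (Finset.mem_Icc.2 ⟨le_rfl, by omega⟩)]
  have s2 : ∑ f ∈ Finset.Icc 1 X, (if (Squarefree f ∧ f.Coprime (2 * 1) ∧ BadF 1 (yA a X) f) then
        SF a X k c l t * ((2 * C0 : ℝ) ^ f.primeFactors.card / f) else 0) ≤
        ε * SF a X k c l t := by
    rw [← Finset.sum_filter, ← Finset.mul_sum, mul_comm]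
    apply mul_le_mul_of_nonneg_right _ hSF0
    have := hX1 X hXX1
    push_cast at this
    exact this
  have s3 : ∑ f ∈ Finset.Icc 1 X, (if Squarefree f then
      b ^ 2 * ((2 * C0 : ℝ) ^ f.primeFactors.card / f) else 0) ≤
      ε / Real.log X * (CA a X k) ^ 2 := by
    rw [← Finset.sum_filter, ← Finset.mul_sum]
    refine le_trans ?_ hb
    apply mul_le_mul_of_nonneg_left _ (by positivity)
    have := hHS (2 * C0) X (by omega)
    push_cast at this
    exact this
  rw [s1]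
  linarith

end Pool.Agent.H38R2.CG2
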