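import Pool.Agent.H38R2.CG2.Stubs

set_option autoImplicit false

/-! Task TC0: lossy upper bound for any c. -/

namespace Pool.Agent.H38R2.CG2

open Finset Filter NumberField Pool.Agent.H38R2.CG
open scoped Classical

namespace TC0h

theorem tau_nonneg (c : Finset ℕ) (v : ℕ) : 0 ≤ tau c v :=
  Finset.prod_nonneg (fun p _ => by positivity)

theorem jac_le (m : ℤ) (f : ℕ) : |((jacobiSym m f : ℤ) : ℝ)| ≤ 1 := by
  rcases jacobiSym.trichotomy m f with h | h | h <;> simp [h]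

end TC0h

open TC0h in
theorem T2_TC0 : P2_FJ → P2_JX → P2_KB → P2_HS → P2_TC0 := by
  intro hFJ hJX hKB hHS a ha z X hX C0 hC0 ρ hS hPQ c k w V F I l t hc hw hwQ hF hF0 hI hl hV
  have hfej := hFJ.2.1
  have hPP : ∀ p ∈ PA a X, p.Prime ∧ ¬ p ∣ Qz z := by
    intro p hp
    refine ⟨?_, hPQ p hp⟩
    unfold PA PP at hp
    exact (Finset.mem_filter.1 hp).2
  have hI0 : 0 ≤ I := by
    have := hI 0 le_rfl
    simpa using this
  have hlogX : 0 < Real.log X := Real.log_pos (by exact_mod_cast (by omega : 1 < X))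
  have hG : 0 < GG X ρ := lt_of_lt_of_le (by positivity) hS.low
  have hSF : 0 ≤ SF a X k c l t :=
    Finset.sum_nonneg (fun s _ => Finset.sum_nonneg (fun t' _ => hfej _))
  have hX0 : (0 : ℝ) < X := by exact_mod_cast (by omega : 0 < X)
  set Ff := (Finset.Icc 1 X).filter
      (fun f => Squarefree f ∧ f.Coprime (Qz z) ∧ ∀ p ∈ c, ¬ p ∣ f) with hFf
  -- bound for one v
  have h1 : ∀ v ∈ (Finset.Icc 1 V).filter (fun v => w ∣ v), UJ a z X k ρ c F l t v ≤
      ∑ f ∈ Ff, SF a X k c l t * (F v * (tau c v * |kap X ρ f v|)) := by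
    intro v hv
    rw [Finset.mem_filter, Finset.mem_Icc] at hv
    have hvX : (v : ℝ) * (X : ℝ) ^ (cc a) ≤ X := by
      have hvV : (v : ℝ) ≤ V := by exact_mod_cast hv.1.2
      calc (v : ℝ) * (X : ℝ) ^ (cc a) ≤ (X : ℝ) ^ (1 - cc a) * (X : ℝ) ^ (cc a) :=
            mul_le_mul_of_nonneg_right (hvV.trans hV) (by positivity)
        _ = X := by
            rw [← Real.rpow_add hX0, sub_add_cancel, Real.rpow_one]
    have hJ : ∀ m : ℕ, JJ z X ρ c m v =
        tau c v * ∑ f ∈ Ff, ((jacobiSym (m : ℤ) f : ℤ) : ℝ) * kap X ρ f v := fun m =>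
      hJX z X (PA a X) (cc a) C0 ρ c m v hS hc hPP hv.1.1 hvX
    have hJb : ∀ m : ℕ, JJ z X ρ c m v ≤ ∑ f ∈ Ff, tau c v * |kap X ρ f v| := by
      intro m
      rw [hJ m, Finset.mul_sum]
      refine Finset.sum_le_sum (fun f _ => mul_le_mul_of_nonneg_left ?_ (tau_nonneg c v))
      calc ((jacobiSym (m : ℤ) f : ℤ) : ℝ) * kap X ρ f v
          ≤ |((jacobiSym (m : ℤ) f : ℤ) : ℝ) * kap X ρ f v| := le_abs_self _
        _ = |((jacobiSym (m : ℤ) f : ℤ) : ℝ)| * |kap X ρ f v| := abs_mul _ _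
        _ ≤ 1 * |kap X ρ f v| := mul_le_mul_of_nonneg_right (jac_le _ _) (abs_nonneg _)
        _ = |kap X ρ f v| := one_mul _
    unfold UJ
    have h2 : ∑ s ∈ (PA a X).powersetCard k, ∑ t' ∈ (PA a X).powersetCard k,
        JJ z X ρ c (prodS s * prodS t') v *
        fej (l * (Real.log (prodS c ^ 2 * (prodS s * prodS t') : ℕ) - t)) ≤
        (∑ f ∈ Ff, tau c v * |kap X ρ f v|) * SF a X k c l t := by
      unfold SF
      rw [Finset.mul_sum]
      refine Finset.sum_le_sum (fun s _ => ?_)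
      rw [Finset.mul_sum]
      exact Finset.sum_le_sum (fun t' _ => mul_le_mul_of_nonneg_right (hJb _) (hfej _))
    refine (mul_le_mul_of_nonneg_left h2 (hF0 v)).trans (le_of_eq ?_)
    rw [Finset.sum_mul, Finset.mul_sum]
    refine Finset.sum_congr rfl (fun f _ => ?_)
    ring
  refine (Finset.sum_le_sum h1).trans ?_
  rw [Finset.sum_comm]
  -- bound for one f
  have h3 : ∀ f ∈ Ff, ∑ v ∈ (Finset.Icc 1 V).filter (fun v => w ∣ v),
      SF a X k c l t * (F v * (tau c v * |kap X ρ f v|)) ≤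
      (3 ^ c.card * GG X ρ * (I / w) * SF a X k c l t) *
        (((2 * C0 : ℕ) : ℝ) ^ f.primeFactors.card / f) := by
    intro f hf
    rw [hFf, Finset.mem_filter, Finset.mem_Icc] at hf
    obtain ⟨⟨hf1, _⟩, hfs, hfc, hfp⟩ := hf
    have hwf : w.Coprime f := by
      rw [Nat.coprime_comm] at hfc
      apply Nat.Coprime.symm
      rw [Nat.coprime_iff_gcd_eq_one]
      by_contra hne
      obtain ⟨p, hp, hpd⟩ := Nat.exists_prime_and_dvd hne
      have hpw := hpd.trans (Nat.gcd_dvd_right f w)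
      have hpf := hpd.trans (Nat.gcd_dvd_left f w)
      have := Nat.dvd_gcd (hwQ p hp hpw) hpf
      rw [hfc] at this
      exact hp.one_lt.ne' (Nat.dvd_one.1 this)
    have hcp : ∀ p ∈ c, p.Prime ∧ ¬ p ∣ f ∧ ¬ p ∣ w := by
      intro p hp
      obtain ⟨h1, h2⟩ := hPP p (hc hp)
      exact ⟨h1, hfp p hp, fun h => h2 (hwQ p h1 h)⟩
    have hk := hKB z X V f w (PA a X) (cc a) C0 ρ c F I hS hC0 hw hf1 hfs hwf hcp hF hF0 hI
    rw [← Finset.mul_sum]
    refine (mul_le_mul_of_nonneg_left hk hSF).trans (le_of_eq ?_)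
    push_cast
    ring
  refine (Finset.sum_le_sum h3).trans ?_
  rw [← Finset.mul_sum]
  have h4 : ∑ f ∈ Ff, ((2 * C0 : ℕ) : ℝ) ^ f.primeFactors.card / f ≤
      (1 + Real.log X) ^ (2 * C0) := by
    refine le_trans ?_ (hHS (2 * C0) X (by omega))
    apply Finset.sum_le_sum_of_subset_of_nonneg
    · intro f hf
      rw [hFf, Finset.mem_filter] at hf
      rw [Finset.mem_filter]
      exact ⟨hf.1, hf.2.1⟩
    · intro f _ _
      positivity
  calc (3 ^ c.card * GG X ρ * (I / w) * SF a X k c l t) *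
        ∑ f ∈ Ff, ((2 * C0 : ℕ) : ℝ) ^ f.primeFactors.card / f
      ≤ (3 ^ c.card * GG X ρ * (I / w) * SF a X k c l t) * (1 + Real.log X) ^ (2 * C0) :=
        mul_le_mul_of_nonneg_left h4 (by positivity)
    _ = 3 ^ c.card * GG X ρ * (I / w) * (1 + Real.log X) ^ (2 * C0) * SF a X k c l t := by ring

end Pool.Agent.H38R2.CG2
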