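import Pool.Agent.H38R2.CG2.Stubs
import Pool.Agent.H38R2.CG.TB6d

set_option autoImplicit false

namespace Pool.Agent.H38R2.CG2

open Finset Filter NumberField Pool.Agent.H38R2.CG
open scoped Classical

namespace TDh

/-- the twisted double sum -/
noncomputable def T (a : ℝ) (X k : ℕ) (l t : ℝ) (f M : ℕ) (ψ : DirichletCharacter ℂ M) : ℂ :=
  ∑ s ∈ (PA a X).powersetCard k, ∑ t' ∈ (PA a X).powersetCard k,
    ψ (prodS s : ZMod M) * ((jacobiSym (prodS s : ℤ) f : ℤ) : ℂ) *
      (ψ (prodS t' : ZMod M) * ((jacobiSym (prodS t' : ℤ) f : ℤ) : ℂ)) *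
      ((fej (l * (Real.log (prodS s) + Real.log (prodS t') - t)) : ℝ) : ℂ)

theorem prime_of_mem {a : ℝ} {X k : ℕ} {s : Finset ℕ} (hs : s ∈ (PA a X).powersetCard k)
    {p : ℕ} (hp : p ∈ s) : p.Prime ∧ p ∈ PA a X := by
  rw [Finset.mem_powersetCard] at hs
  have h1 := hs.1 hp
  refine ⟨?_, h1⟩
  unfold PA PP at h1
  rw [Finset.mem_filter] at h1
  exact h1.2

theorem prodS_pos {a : ℝ} {X k : ℕ} {s : Finset ℕ} (hs : s ∈ (PA a X).powersetCard k) :
    0 < prodS s := by
  unfold prodS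
  exact Finset.prod_pos fun p hp => (prime_of_mem hs hp).1.pos

theorem prodS_cop {z : ℕ} {a : ℝ} {X k : ℕ} (h : ∀ p ∈ PA a X, ¬ p ∣ Qz z) {s : Finset ℕ}
    (hs : s ∈ (PA a X).powersetCard k) : (prodS s).Coprime (Qz z) := by
  unfold prodS
  apply Nat.Coprime.prod_left
  intro p hp
  obtain ⟨h1, h2⟩ := prime_of_mem hs hp
  exact (Nat.Prime.coprime_iff_not_dvd h1).2 (h p h2)

theorem log_mul {a : ℝ} {X k : ℕ} {s t' : Finset ℕ} (hs : s ∈ (PA a X).powersetCard k)
    (ht : t' ∈ (PA a X).powersetCard k) :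
    Real.log ((prodS s * prodS t' : ℕ) : ℝ) = Real.log (prodS s) + Real.log (prodS t') := by
  have h1 : ((prodS s : ℕ) : ℝ) ≠ 0 := by exact_mod_cast (prodS_pos hs).ne'
  have h2 : ((prodS t' : ℕ) : ℝ) ≠ 0 := by exact_mod_cast (prodS_pos ht).ne'
  push_cast
  exact Real.log_mul h1 h2

end TDh

open TB6dh TDh in
theorem T2_TD : P_TB6a → P_TB3c → P2_TD := by
  intro h6a h3c z r v f X k a l t hz hr hv hPA
  have hMpos : 0 < Qz z * (qpart z v) ^ 2 :=
    Nat.mul_pos (Qz_pos z) (pow_pos (qpart_pos z v) _)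
  set M := Qz z * (qpart z v) ^ 2 with hMdef
  have : NeZero M := ⟨hMpos.ne'⟩
  set B : ℝ := (Qz z * 8 * 2 ^ z : ℝ) with hB
  have hB0 : 0 ≤ B := by positivity
  set g : ZMod M → ℂ := fun a => (rhoQ z r a.val v : ℂ) with hg
  have hgn : ∀ n : ℕ, g (n : ZMod M) = (rhoQ z r n v : ℂ) := by
    intro n
    simp only [hg]
    rw [ZMod.val_natCast, rhoQ_mod]
  have hgB : ∀ u : (ZMod M)ˣ, ‖g u‖ ≤ B := by
    intro u
    simp only [hg]
    rw [Complex.norm_natCast]
    have h1 : ((u : ZMod M).val).Coprime M := ZMod.val_coe_unit_coprime u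
    have h2 := h3c z r ((u : ZMod M).val) v hv ((cop_iff z v _).mp h1)
    have h3 : ((rhoQ z r ((u : ZMod M).val) v : ℕ) : ℝ) ≤ ((Qz z * 8 * 2 ^ z : ℕ) : ℝ) := by
      exact_mod_cast h2
    rw [hB]
    push_cast at h3
    exact h3
  have hc1 : TB6dh.cc g 1 = (rbar z r v : ℂ) := by
    rw [cc_one]
    have h1 : (Finset.range M).filter (fun n => n.Coprime M) =
        (Finset.range M).filter (fun n => n.Coprime (Qz z)) := by
      apply Finset.filter_congr
      intro n _
      exact cop_iff z v n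
    rw [h1]
    simp only [hgn]
    have h2 := h6a z r v hz hr hv
    have h3 : ((∑ n ∈ (Finset.range M).filter (fun n => n.Coprime (Qz z)),
        (rhoQ z r n v : ℂ))) = ((Nat.totient M : ℝ) * rbar z r v : ℝ) := by
      rw [hMdef, ← h2]
      push_cast
      rfl
    rw [h3]
    have h4 : (M.totient : ℂ) ≠ 0 := by
      have := Nat.totient_pos.mpr (Nat.pos_of_ne_zero (NeZero.ne M))
      exact_mod_cast this.ne'
    push_cast
    field_simp
  have hexp : ∀ n : ℕ, n.Coprime (Qz z) →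
      (rhoQ z r n v : ℂ) = ∑ ψ : DirichletCharacter ℂ M, TB6dh.cc g ψ * ψ (n : ZMod M) := by
    intro n hn
    rw [← hgn n]
    apply TB6dh.expand
    rw [ZMod.isUnit_iff_coprime]
    exact (cop_iff z v n).mpr hn
  -- the double sum
  have hmain : (((∑ s ∈ (PA a X).powersetCard k, ∑ t' ∈ (PA a X).powersetCard k,
      (rhoQ z r (prodS s * prodS t') v : ℝ) *
      ((jacobiSym ((prodS s * prodS t' : ℕ) : ℤ) f : ℤ) : ℝ) *
      fej (l * (Real.log (prodS s * prodS t' : ℕ) - t))) : ℝ) : ℂ) =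
      ∑ ψ : DirichletCharacter ℂ M, TB6dh.cc g ψ * T a X k l t f M ψ := by
    rw [Complex.ofReal_sum]
    have h1 : ∀ s ∈ (PA a X).powersetCard k,
        ((∑ t' ∈ (PA a X).powersetCard k, (rhoQ z r (prodS s * prodS t') v : ℝ) *
        ((jacobiSym ((prodS s * prodS t' : ℕ) : ℤ) f : ℤ) : ℝ) *
        fej (l * (Real.log (prodS s * prodS t' : ℕ) - t)) : ℝ) : ℂ) =
        ∑ ψ : DirichletCharacter ℂ M, ∑ t' ∈ (PA a X).powersetCard k, TB6dh.cc g ψ *
          (ψ (prodS s : ZMod M) * ((jacobiSym (prodS s : ℤ) f : ℤ) : ℂ) *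
            (ψ (prodS t' : ZMod M) * ((jacobiSym (prodS t' : ℤ) f : ℤ) : ℂ)) *
            ((fej (l * (Real.log (prodS s) + Real.log (prodS t') - t)) : ℝ) : ℂ)) := by
      intro s hs
      rw [Complex.ofReal_sum, Finset.sum_comm]
      refine Finset.sum_congr rfl fun t' ht => ?_
      rw [log_mul hs ht, Complex.ofReal_mul, Complex.ofReal_mul, Complex.ofReal_natCast,
        hexp _ (Nat.Coprime.mul_left (prodS_cop hPA hs) (prodS_cop hPA ht)), Nat.cast_mul,
        Nat.cast_mul, jacobiSym.mul_left]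
      push_cast
      rw [Finset.sum_mul, Finset.sum_mul]
      refine Finset.sum_congr rfl fun ψ _ => ?_
      rw [map_mul]
      ring
    rw [Finset.sum_congr rfl h1, Finset.sum_comm]
    refine Finset.sum_congr rfl fun ψ _ => ?_
    unfold T
    rw [Finset.mul_sum]
    refine Finset.sum_congr rfl fun s _ => ?_
    rw [Finset.mul_sum]
  have hS1 : f = 1 → T a X k l t f M 1 = (SF a X k ∅ l t : ℂ) := by
    intro hf
    unfold T SF
    rw [Complex.ofReal_sum]
    refine Finset.sum_congr rfl fun s hs => ?_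
    rw [Complex.ofReal_sum]
    refine Finset.sum_congr rfl fun t' ht => ?_
    have h1 : ∀ s ∈ (PA a X).powersetCard k,
        (1 : DirichletCharacter ℂ M) (prodS s : ZMod M) = 1 := by
      intro s hs
      apply MulChar.one_apply
      rw [ZMod.isUnit_iff_coprime]
      exact (cop_iff z v _).mpr (prodS_cop hPA hs)
    have h2 : prodS (∅ : Finset ℕ) ^ 2 * (prodS s * prodS t') = prodS s * prodS t' := by
      unfold prodS
      rw [Finset.prod_empty]
      ring
    rw [h1 s hs, h1 t' ht, hf, jacobiSym.one_right, jacobiSym.one_right, h2, log_mul hs ht]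
    simp
  have hsub : ((if f = 1 then rbar z r v * SF a X k ∅ l t else 0 : ℝ) : ℂ) =
      ∑ ψ : DirichletCharacter ℂ M,
        if ψ = 1 ∧ f = 1 then TB6dh.cc g ψ * T a X k l t f M ψ else 0 := by
    by_cases hf : f = 1
    · rw [if_pos hf, Finset.sum_eq_single (1 : DirichletCharacter ℂ M)]
      · rw [if_pos ⟨rfl, hf⟩, hc1, hS1 hf]
        push_cast
        ring
      · intro ψ _ hψ
        rw [if_neg]
        intro h
        exact hψ h.1
      · intro h
        exact absurd (Finset.mem_univ _) h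
    · rw [if_neg hf]
      rw [Finset.sum_eq_zero]
      · simp
      · intro ψ _
        rw [if_neg]
        intro h
        exact hf h.2
  rw [← Real.norm_eq_abs, ← Complex.norm_real, Complex.ofReal_sub, hmain, hsub,
    ← Finset.sum_sub_distrib]
  refine (norm_sum_le _ _).trans ?_
  rw [Finset.mul_sum]
  refine Finset.sum_le_sum fun ψ _ => ?_
  by_cases h : ψ = 1 ∧ f = 1
  · rw [if_pos h, if_pos h]
    simp
  · rw [if_neg h, if_neg h, sub_zero, norm_mul]
    exact mul_le_mul_of_nonneg_right (norm_cc g ψ B hgB) (norm_nonneg _)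

end Pool.Agent.H38R2.CG2
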