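import Pool.Agent.H38R2.CG2.Stubs

set_option autoImplicit false

namespace Pool.Agent.H38R2.CG2

open Finset Filter NumberField Pool.Agent.H38R2.CG
open scoped Classical

namespace TRIVh

theorem rho_ne {d : ℕ} (h : (if d = 1 then (1 : ℝ) else 0) ≠ 0) : d = 1 := by
  by_contra hd
  exact h (if_neg hd)

/-- a sum in which only `d = 1` contributes -/
theorem sum_one (S : Finset ℕ) (f : ℕ → ℝ) (h1 : 1 ∈ S) :
    ∑ d ∈ S, (if d = 1 then (1 : ℝ) else 0) * f d = f 1 := by
  rw [Finset.sum_eq_single 1]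
  · simp
  · intro b _ hb
    rw [if_neg hb, zero_mul]
  · intro h
    exact absurd h1 h

theorem sum_zero (S : Finset ℕ) (f : ℕ → ℝ) (h1 : 1 ∉ S) :
    ∑ d ∈ S, (if d = 1 then (1 : ℝ) else 0) * f d = 0 := by
  refine Finset.sum_eq_zero fun b hb => ?_
  have hb1 : b ≠ 1 := by
    rintro rfl
    exact h1 hb
  rw [if_neg hb1, zero_mul]

end TRIVh

open TRIVh in
theorem T2_TRIV : P2_TRIV := by
  intro z X P δ C0 hX hδ hC0 hP
  have h1X : 1 ∈ Finset.Icc 1 X := Finset.mem_Icc.2 ⟨le_refl _, by omega⟩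
  have hX1 : (1 : ℝ) ≤ X := by exact_mod_cast (by omega : 1 ≤ X)
  have hGG : GG X (fun d => if d = 1 then (1 : ℝ) else 0) = 1 := by
    have h := sum_one (Finset.Icc 1 X) (fun d => ((d : ℝ))⁻¹) h1X
    unfold GG
    simp only [div_eq_mul_inv]
    rw [h]
    norm_num
  refine ⟨⟨?_, ?_, ?_, ?_, ?_⟩, hGG, ?_⟩
  · intro d hd
    obtain rfl := rho_ne hd
    refine ⟨le_refl _, ?_, squarefree_one, Nat.coprime_one_left _, ?_⟩
    · rw [Nat.cast_one]
      exact Real.one_le_rpow hX1 hδ.le
    · intro p hp hpd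
      exact (hP p hp).one_lt.ne' (Nat.dvd_one.1 hpd)
  · intro d
    split_ifs <;> norm_num
  · rw [hGG]
    have hlog : 1 ≤ Real.log X := by
      have h3 : (3 : ℝ) ≤ X := by exact_mod_cast hX
      have h4 : Real.exp 1 ≤ X := by
        have := Real.exp_one_lt_d9
        linarith
      rw [Real.le_log_iff_exp_le (by linarith)]
      exact h4
    exact inv_le_one_of_one_le₀ (one_le_pow₀ hlog)
  · intro g hg
    rw [hGG]
    simp only [div_eq_mul_inv]
    by_cases hg1 : g = 1
    · subst hg1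
      rw [sum_one _ (fun d => ((d : ℝ))⁻¹) (by simp; omega)]
      simp
    · rw [sum_zero _ (fun d => ((d : ℝ))⁻¹) (by
        intro h
        rw [Finset.mem_filter] at h
        exact hg1 (Nat.dvd_one.1 h.2))]
      rw [abs_zero]
      positivity
  · intro x _
    rw [sum_one _ (fun d => ∏ p ∈ d.primeFactors, x p) h1X]
    simp
  · intro D hD
    unfold wt
    have h := sum_one D.divisors (fun _ => 1) (Nat.one_mem_divisors.2 (by omega))
    simpa using h

end Pool.Agent.H38R2.CG2
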