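import Pool.Agent.H38R2.CG2.Stubs

/-!
# The weights are nonnegative
-/

set_option autoImplicit false

namespace Pool.Agent.H38R2.CG2

open Finset Filter NumberField Pool.Agent.H38R2.CG
open scoped Classical

namespace WTh

theorem prod_ind {d D : ℕ} (hd : Squarefree d) :
    (∏ p ∈ d.primeFactors, (if p ∣ D then (1 : ℝ) else 0)) = if d ∣ D then 1 else 0 := by
  by_cases h : d ∣ D
  · rw [if_pos h]
    refine Finset.prod_eq_one fun p hp => ?_
    rw [if_pos ((Nat.dvd_of_mem_primeFactors hp).trans h)]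
  · rw [if_neg h]
    by_contra hcon
    apply h
    have h1 : ∀ p ∈ d.primeFactors, p ∣ D := by
      intro p hp
      by_contra hpD
      exact hcon (Finset.prod_eq_zero hp (if_neg hpD))
    rw [← Nat.prod_primeFactors_of_squarefree hd]
    refine Finset.prod_primes_dvd D (fun p hp => ?_) h1
    exact (Nat.prime_of_mem_primeFactors hp).prime

end WTh

theorem T2_WT : P2_WT := by
  intro z X P δ C0 ρ hX hδ hW D hD
  have hle : ∀ d, ρ d ≠ 0 → 1 ≤ d ∧ d ≤ X ∧ Squarefree d := by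
    intro d hd
    obtain ⟨h1, h2, h3, -⟩ := hW.supp d hd
    refine ⟨h1, ?_, h3⟩
    have hX1 : (1 : ℝ) ≤ X := by exact_mod_cast hX
    have h4 : (X : ℝ) ^ δ ≤ X := by
      calc (X : ℝ) ^ δ ≤ (X : ℝ) ^ (1 : ℝ) := Real.rpow_le_rpow_of_exponent_le hX1 hδ
        _ = X := Real.rpow_one _
    exact_mod_cast h2.trans h4
  have hform : wt ρ D = ∑ d ∈ (Finset.Icc 1 X).filter (fun d => d ∣ D), ρ d := by
    unfold wt
    rw [← Finset.sum_filter_ne_zero (s := D.divisors),
      ← Finset.sum_filter_ne_zero (s := (Finset.Icc 1 X).filter (fun d => d ∣ D))]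
    refine Finset.sum_congr ?_ fun _ _ => rfl
    ext d
    simp only [Finset.mem_filter, Nat.mem_divisors, Finset.mem_Icc]
    constructor
    · rintro ⟨⟨h1, h2⟩, h3⟩
      obtain ⟨h4, h5, -⟩ := hle d h3
      exact ⟨⟨⟨h4, h5⟩, h1⟩, h3⟩
    · rintro ⟨⟨h1, h2⟩, h3⟩
      exact ⟨⟨h2, by omega⟩, h3⟩
  refine ⟨?_, hform⟩
  rw [hform]
  have h1 := hW.pos (fun p => if p ∣ D then 1 else 0) (fun p => by
    split_ifs <;> norm_num)
  refine h1.trans (le_of_eq ?_)
  rw [Finset.sum_filter]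
  refine Finset.sum_congr rfl fun d _ => ?_
  by_cases hd : ρ d = 0
  · rw [hd, zero_mul, ite_self]
  · rw [WTh.prod_ind (hle d hd).2.2]
    split_ifs
    · rw [mul_one]
    · rw [mul_zero]

end Pool.Agent.H38R2.CG2
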